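import Pool.Agent.Helper76.FT.GoalsA

/-!
Packet FT-NEWTON, part 1: elementary facts on `SH`, derivatives in `z`, uniform limits,
composition with the nonlinearity.
-/

set_option autoImplicit false

namespace Pool.Agent.Helper32.FTNewton

open Complex Set Filter Topology Metric
open Pool.Agent.Helper76.FT

lemma isOpen_str (ρ : ℝ) : IsOpen (Str ρ) := by
  have h : Str ρ = (fun z : ℂ => |z.im|) ⁻¹' Iio ρ := rfl
  rw [h]
  exact isOpen_Iio.preimage (continuous_abs.comp Complex.continuous_im)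

lemma str_mono {a b : ℝ} (h : a ≤ b) : Str a ⊆ Str b := fun _ hz => lt_of_lt_of_le hz h

lemma add_one_mem {ρ : ℝ} {z : ℂ} (hz : z ∈ Str ρ) : z + 1 ∈ Str ρ := by
  simpa [Str] using hz

lemma sh_mono {f : ℂ → ℝ → ℂ} {ρ ρ' : ℝ} (h : SH f ρ) (hr : ρ' ≤ ρ) : SH f ρ' :=
  ⟨fun t ht => (h.hol t ht).mono (str_mono hr),
   h.cont.mono (prod_mono (str_mono hr) subset_rfl),
   fun z hz t ht => h.per z (str_mono hr hz) t ht⟩

lemma sh_add {f g : ℂ → ℝ → ℂ} {ρ : ℝ} (hf : SH f ρ) (hg : SH g ρ) :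
    SH (fun z t => f z t + g z t) ρ :=
  ⟨fun t ht => (hf.hol t ht).add (hg.hol t ht), hf.cont.add hg.cont,
   fun z hz t ht => by simp only [hf.per z hz t ht, hg.per z hz t ht]⟩

lemma sh_sub {f g : ℂ → ℝ → ℂ} {ρ : ℝ} (hf : SH f ρ) (hg : SH g ρ) :
    SH (fun z t => f z t - g z t) ρ :=
  ⟨fun t ht => (hf.hol t ht).sub (hg.hol t ht), hf.cont.sub hg.cont,
   fun z hz t ht => by simp only [hf.per z hz t ht, hg.per z hz t ht]⟩

lemma sh_neg {f : ℂ → ℝ → ℂ} {ρ : ℝ} (hf : SH f ρ) : SH (fun z t => - f z t) ρ :=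
  ⟨fun t ht => (hf.hol t ht).neg, hf.cont.neg,
   fun z hz t ht => by simp only [hf.per z hz t ht]⟩

lemma sh_mul {f g : ℂ → ℝ → ℂ} {ρ : ℝ} (hf : SH f ρ) (hg : SH g ρ) :
    SH (fun z t => f z t * g z t) ρ :=
  ⟨fun t ht => (hf.hol t ht).mul (hg.hol t ht), hf.cont.mul hg.cont,
   fun z hz t ht => by simp only [hf.per z hz t ht, hg.per z hz t ht]⟩

lemma sh_const (c : ℂ) (ρ : ℝ) : SH (fun _ _ => c) ρ :=
  ⟨fun _ _ => differentiableOn_const c, continuousOn_const, fun _ _ _ _ => rfl⟩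

lemma tlu {f : ℂ → ℝ → ℂ} {ρ : ℝ} (h : SH f ρ) {t0 : ℝ} (ht0 : t0 ∈ Icc (0:ℝ) 1) :
    TendstoLocallyUniformlyOn (fun t z => f z t) (fun z => f z t0)
      (𝓝[Icc (0:ℝ) 1] t0) (Str ρ) := by
  rw [Metric.tendstoLocallyUniformlyOn_iff]
  intro ε hε x hx
  have hc := h.cont (x, t0) ⟨hx, ht0⟩
  rw [ContinuousWithinAt, Metric.tendsto_nhds] at hc
  have h1 := hc (ε/2) (by positivity)
  rw [nhdsWithin_prod_eq, Filter.eventually_prod_iff] at h1
  obtain ⟨pa, hpa, pb, hpb, hab⟩ := h1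
  refine ⟨{y | pa y}, hpa, ?_⟩
  have hb0 : pb t0 := hpb.self_of_nhdsWithin ht0
  filter_upwards [hpb] with t ht y hy
  have e1 := hab hy ht
  have e2 := hab hy hb0
  simp only at e1 e2
  have e3 := dist_triangle (f y t0) (f x t0) (f y t)
  rw [dist_comm (f x t0)] at e3
  linarith

lemma diffAt {f : ℂ → ℝ → ℂ} {ρ : ℝ} (h : SH f ρ) {z : ℂ} (hz : z ∈ Str ρ) {t : ℝ}
    (ht : t ∈ Icc (0:ℝ) 1) : DifferentiableAt ℂ (fun z' => f z' t) z :=
  (h.hol t ht).differentiableAt ((isOpen_str ρ).mem_nhds hz)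

lemma dz_add {f g : ℂ → ℝ → ℂ} {ρ : ℝ} (hf : SH f ρ) (hg : SH g ρ) {z : ℂ} (hz : z ∈ Str ρ)
    {t : ℝ} (ht : t ∈ Icc (0:ℝ) 1) :
    dz (fun z t => f z t + g z t) z t = dz f z t + dz g z t := by
  unfold dz
  exact deriv_fun_add (diffAt hf hz ht) (diffAt hg hz ht)

lemma sh_dz {f : ℂ → ℝ → ℂ} {ρ : ℝ} (h : SH f ρ) : SH (dz f) ρ := by
  refine ⟨fun t ht => ?_, ?_, ?_⟩
  · exact (h.hol t ht).deriv (isOpen_str ρ)
  · rintro ⟨x, t0⟩ ⟨hx, ht0⟩
    simp only at hx ht0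
    have h1 := (tlu h ht0).deriv (Filter.eventually_of_mem self_mem_nhdsWithin
      (fun t ht => h.hol t ht)) (isOpen_str ρ)
    rw [Metric.tendstoLocallyUniformlyOn_iff] at h1
    have hc : ContinuousWithinAt (deriv (fun z => f z t0)) (Str ρ) x :=
      ((h.hol t0 ht0).deriv (isOpen_str ρ)).continuousOn x hx
    rw [ContinuousWithinAt, Metric.tendsto_nhds]
    intro ε hε
    obtain ⟨u, hu, hu2⟩ := h1 (ε/2) (by positivity) x hx
    have h3 := Metric.tendsto_nhds.1 hc (ε/2) (by positivity)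
    rw [nhdsWithin_prod_eq, Filter.eventually_prod_iff]
    refine ⟨fun y => y ∈ u ∧ dist (deriv (fun z => f z t0) y) (deriv (fun z => f z t0) x) < ε/2,
      (Filter.eventually_of_mem hu (fun y hy => hy)).and h3,
      fun t => ∀ y ∈ u, dist (deriv (fun z => f z t0) y) ((deriv ∘ fun t z => f z t) t y) < ε/2,
      hu2, ?_⟩
    rintro y ⟨hy1, hy2⟩ t ht
    have e1 := ht y hy1
    have e3 := dist_triangle (dz f y t) (dz f y t0) (dz f x t0)
    simp only [Function.comp] at e1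
    rw [dist_comm] at e1
    unfold dz at *
    simp only
    linarith
  · intro z hz t ht
    unfold dz
    rw [← deriv_comp_add_const (fun z' => f z' t) 1 z]
    apply Filter.EventuallyEq.deriv_eq
    filter_upwards [(isOpen_str ρ).mem_nhds hz] with y hy
    exact h.per y hy t ht

lemma sh_of_unif {ι : Type*} {l : Filter ι} [l.NeBot] {F : ι → ℂ → ℝ → ℂ} {f : ℂ → ℝ → ℂ}
    {ρ : ℝ} (hF : ∀ᶠ i in l, SH (F i) ρ)
    (hu : ∀ ε > 0, ∀ᶠ i in l, ∀ z ∈ Str ρ, ∀ t ∈ Icc (0:ℝ) 1,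
      dist (f z t) (F i z t) < ε) : SH f ρ := by
  refine ⟨fun t ht => ?_, ?_, ?_⟩
  · have h1 : TendstoUniformlyOn (fun i z => F i z t) (fun z => f z t) l (Str ρ) := by
      rw [Metric.tendstoUniformlyOn_iff]
      intro ε hε
      filter_upwards [hu ε hε] with i hi z hz
      exact hi z hz t ht
    exact h1.tendstoLocallyUniformlyOn.differentiableOn
      (hF.mono fun i hi => hi.hol t ht) (isOpen_str ρ)
  · have h1 : TendstoUniformlyOn (fun i (q : ℂ × ℝ) => F i q.1 q.2)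
        (fun q : ℂ × ℝ => f q.1 q.2) l (Str ρ ×ˢ Icc (0:ℝ) 1) := by
      rw [Metric.tendstoUniformlyOn_iff]
      intro ε hε
      filter_upwards [hu ε hε] with i hi q hq
      exact hi q.1 hq.1 q.2 hq.2
    exact h1.continuousOn (hF.mono fun i hi => hi.cont).frequently
  · intro z hz t ht
    have key : ∀ z ∈ Str ρ, Tendsto (fun i => F i z t) l (𝓝 (f z t)) := by
      intro z hz
      rw [Metric.tendsto_nhds]
      intro ε hε
      filter_upwards [hu ε hε] with i hi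
      rw [dist_comm]
      exact hi z hz t ht
    have k1 := key (z+1) (add_one_mem hz)
    have k2 := key z hz
    refine tendsto_nhds_unique_of_eventuallyEq k1 k2 ?_
    filter_upwards [hF] with i hi
    exact hi.per z hz t ht

lemma sh_comp {N : ℂ → ℝ → ℂ → ℂ} {ρ d M μ : ℝ} (hN : NL N ρ d M μ) {v : ℂ → ℝ → ℂ} {r : ℝ}
    (hr : r ≤ ρ) (hv : SH v r) (hb : ∀ z ∈ Str r, ∀ t ∈ Icc (0:ℝ) 1, v z t ∈ ball (0:ℂ) d) :
    SH (fun z t => N z t (v z t)) r := by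
  refine ⟨fun t ht => ?_, ?_, ?_⟩
  · have h1 : DifferentiableOn ℂ (fun z : ℂ => ((z, v z t) : ℂ × ℂ)) (Str r) :=
      differentiableOn_id.prodMk (hv.hol t ht)
    exact (hN.hol t ht).comp h1 (fun z hz => ⟨str_mono hr hz, hb z hz t ht⟩)
  · have h1 : ContinuousOn (fun q : ℂ × ℝ => ((q.1, q.2, v q.1 q.2) : ℂ × ℝ × ℂ))
        (Str r ×ˢ Icc (0:ℝ) 1) :=
      continuousOn_fst.prodMk (continuousOn_snd.prodMk hv.cont)
    exact hN.cont.comp h1 (fun q hq => ⟨str_mono hr hq.1, hq.2, hb q.1 hq.1 q.2 hq.2⟩)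
  · intro z hz t ht
    simp only [hv.per z hz t ht]
    exact hN.per z (str_mono hr hz) t ht _ (hb z hz t ht)

/-! ### Cauchy estimates -/

lemma cau1 {f : ℂ → ℂ} {d M : ℝ} (hd : 0 < d) (hf : DifferentiableOn ℂ f (ball 0 d))
    (hM : ∀ u ∈ ball (0:ℂ) d, ‖f u‖ ≤ M) {u : ℂ} (hu : u ∈ ball (0:ℂ) (d/2)) :
    ‖deriv f u‖ ≤ 2 * M / d := by
  have hsub : closedBall u (d/2) ⊆ ball 0 d := by
    intro y hy
    rw [mem_ball_zero_iff] at *
    rw [mem_closedBall, dist_eq_norm] at hy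
    have := norm_add_le (y - u) u
    rw [sub_add_cancel] at this
    linarith
  have h := norm_deriv_le_of_forall_mem_sphere_norm_le (half_pos hd)
    (hf.diffContOnCl_ball hsub) (C := M)
    (fun z hz => hM z (hsub (sphere_subset_closedBall hz)))
  calc ‖deriv f u‖ ≤ M / (d/2) := h
    _ = 2 * M / d := by field_simp

lemma cau2 {f : ℂ → ℂ} {d M : ℝ} (hd : 0 < d) (hf : DifferentiableOn ℂ f (ball 0 d))
    (hM : ∀ u ∈ ball (0:ℂ) d, ‖f u‖ ≤ M) {u : ℂ} (hu : u ∈ ball (0:ℂ) (d/4)) :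
    ‖deriv (deriv f) u‖ ≤ 8 * M / d^2 := by
  have h1 : DifferentiableOn ℂ (deriv f) (ball 0 (d/2)) :=
    (hf.deriv isOpen_ball).mono (ball_subset_ball (by linarith))
  have h2 := cau1 (half_pos hd) h1 (fun u hu => cau1 hd hf hM hu)
    (u := u) (by rw [mem_ball_zero_iff] at *; linarith)
  calc ‖deriv (deriv f) u‖ ≤ 2 * (2 * M / d) / (d/2) := h2
    _ = 8 * M / d^2 := by field_simp; ring

lemma cau_lip {f : ℂ → ℂ} {d M : ℝ} (hd : 0 < d) (hf : DifferentiableOn ℂ f (ball 0 d))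
    (hM : ∀ u ∈ ball (0:ℂ) d, ‖f u‖ ≤ M) {u v : ℂ} (hu : u ∈ ball (0:ℂ) (d/4))
    (hv : v ∈ ball (0:ℂ) (d/4)) : ‖deriv f v - deriv f u‖ ≤ 8 * M / d^2 * ‖v - u‖ := by
  refine (convex_ball (0:ℂ) (d/4)).norm_image_sub_le_of_norm_deriv_le (𝕜 := ℂ) ?_ ?_ hu hv
  · intro x hx
    exact (hf.deriv isOpen_ball).differentiableAt
      (isOpen_ball.mem_nhds (ball_subset_ball (by linarith) hx))
  · intro x hx
    exact cau2 hd hf hM hx

lemma cau_quad {f : ℂ → ℂ} {d M : ℝ} (hd : 0 < d) (hf : DifferentiableOn ℂ f (ball 0 d))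
    (hM : ∀ u ∈ ball (0:ℂ) d, ‖f u‖ ≤ M) {u v : ℂ} (hu : u ∈ ball (0:ℂ) (d/4))
    (hv : v ∈ ball (0:ℂ) (d/4)) :
    ‖f v - f u - deriv f u * (v - u)‖ ≤ 8 * M / d^2 * ‖v - u‖^2 := by
  have hM0 : 0 ≤ M := (norm_nonneg _).trans (hM 0 (mem_ball_self hd))
  set s : Set ℂ := ball (0:ℂ) (d/4) ∩ closedBall u ‖v - u‖ with hs
  have hcs : Convex ℝ s := (convex_ball (0:ℂ) (d/4)).inter (convex_closedBall _ _)
  have hfx : ∀ x ∈ s, DifferentiableAt ℂ f x := fun x hx =>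
    hf.differentiableAt (isOpen_ball.mem_nhds (ball_subset_ball (by linarith) hx.1))
  have hus : u ∈ s := ⟨hu, mem_closedBall_self (norm_nonneg _)⟩
  have hvs : v ∈ s := ⟨hv, by rw [mem_closedBall, dist_eq_norm]⟩
  have h := hcs.norm_image_sub_le_of_norm_deriv_le (𝕜 := ℂ)
    (f := fun x => f x - deriv f u * x) (C := 8 * M / d^2 * ‖v - u‖) (x := u) (y := v)
    (fun x hx => (hfx x hx).sub ((differentiableAt_id).const_mul _)) ?_ hus hvs
  · calc ‖f v - f u - deriv f u * (v - u)‖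
        = ‖(f v - deriv f u * v) - (f u - deriv f u * u)‖ := by congr 1; ring
      _ ≤ 8 * M / d^2 * ‖v - u‖ * ‖v - u‖ := h
      _ = 8 * M / d^2 * ‖v - u‖^2 := by ring
  · intro x hx
    have e : deriv (fun x => f x - deriv f u * x) x = deriv f x - deriv f u := by
      have h0 := (hfx x hx).hasDerivAt.fun_sub ((hasDerivAt_id' x).const_mul (deriv f u))
      rw [mul_one] at h0
      exact h0.deriv
    rw [e]
    have h1 := cau_lip hd hf hM hu hx.1
    have h2 : ‖x - u‖ ≤ ‖v - u‖ := by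
      have := hx.2
      rwa [mem_closedBall, dist_eq_norm] at this
    calc ‖deriv f x - deriv f u‖ ≤ 8 * M / d^2 * ‖x - u‖ := h1
      _ ≤ 8 * M / d^2 * ‖v - u‖ := by gcongr

lemma nl_diff {N : ℂ → ℝ → ℂ → ℂ} {ρ d M μ : ℝ} (hN : NL N ρ d M μ) {z : ℂ} (hz : z ∈ Str ρ)
    {t : ℝ} (ht : t ∈ Icc (0:ℝ) 1) : DifferentiableOn ℂ (fun u => N z t u) (ball 0 d) := by
  have h1 : DifferentiableOn ℂ (fun u : ℂ => ((z, u) : ℂ × ℂ)) (ball 0 d) :=
    (differentiableOn_const z).prodMk differentiableOn_id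
  exact (hN.hol t ht).comp h1 (fun u hu => ⟨hz, hu⟩)

/-- the derivative of the nonlinearity along a function -/
noncomputable def Nu (N : ℂ → ℝ → ℂ → ℂ) (v : ℂ → ℝ → ℂ) (z : ℂ) (t : ℝ) : ℂ :=
  deriv (fun u => N z t u) (v z t)

lemma sh_Nu {N : ℂ → ℝ → ℂ → ℂ} {ρ d M μ : ℝ} (hd : 0 < d) (hN : NL N ρ d M μ)
    {v : ℂ → ℝ → ℂ} {r : ℝ} (hr : r ≤ ρ) (hv : SH v r)
    (hb : ∀ z ∈ Str r, ∀ t ∈ Icc (0:ℝ) 1, ‖v z t‖ ≤ d/8) : SH (Nu N v) r := by
  set K := 8 * M / d^2 with hK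
  refine sh_of_unif (l := 𝓝[≠] (0:ℂ))
    (F := fun h z t => (N z t (v z t + h) - N z t (v z t)) * h⁻¹) ?_ ?_
  · have hball : ∀ᶠ h in 𝓝[≠] (0:ℂ), h ∈ ball (0:ℂ) (d/8) :=
      mem_nhdsWithin_of_mem_nhds (ball_mem_nhds _ (by positivity))
    filter_upwards [hball] with h hh
    rw [mem_ball_zero_iff] at hh
    refine sh_mul (sh_sub (sh_comp hN hr (sh_add hv (sh_const h r)) ?_)
      (sh_comp hN hr hv ?_)) (sh_const _ _)
    · intro z hz t ht
      rw [mem_ball_zero_iff]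
      have := norm_add_le (v z t) h
      have := hb z hz t ht
      linarith
    · intro z hz t ht
      rw [mem_ball_zero_iff]
      have := hb z hz t ht
      linarith
  · intro ε hε
    have hball : ∀ᶠ h in 𝓝[≠] (0:ℂ), h ∈ ball (0:ℂ) (min (d/8) (ε/(|K|+1))) :=
      mem_nhdsWithin_of_mem_nhds (ball_mem_nhds _ (by positivity))
    filter_upwards [hball, self_mem_nhdsWithin] with h hh hne z hz t ht
    rw [mem_ball_zero_iff, lt_min_iff] at hh
    have hne' : h ≠ 0 := hne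
    have hv1 := hb z hz t ht
    have hq := cau_quad hd (nl_diff hN (str_mono hr hz) ht)
      (fun u hu => hN.bd z (str_mono hr hz) t ht u hu) (u := v z t) (v := v z t + h)
      (by rw [mem_ball_zero_iff]; linarith)
      (by rw [mem_ball_zero_iff]; have := norm_add_le (v z t) h; linarith)
    simp only [add_sub_cancel_left] at hq
    rw [dist_comm, dist_eq_norm]
    have e : (N z t (v z t + h) - N z t (v z t)) * h⁻¹ - Nu N v z t
        = (N z t (v z t + h) - N z t (v z t) - deriv (fun u => N z t u) (v z t) * h) * h⁻¹ := by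
      unfold Nu
      field_simp
    have hpos : 0 < ‖h‖ := norm_pos_iff.2 hne'
    rw [e, norm_mul, norm_inv]
    calc _ ≤ (8 * M / d^2 * ‖h‖^2) * ‖h‖⁻¹ := by gcongr
      _ = K * ‖h‖ := by rw [hK]; field_simp
      _ ≤ (|K| + 1) * ‖h‖ := by
          gcongr
          have := le_abs_self K
          linarith
      _ < (|K| + 1) * (ε/(|K|+1)) := by gcongr; exact hh.2
      _ = ε := by field_simp

end Pool.Agent.Helper32.FTNewton
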