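import Mathlib

/-!
Packet FT-GRON, real-variable core.
-/

set_option autoImplicit false

namespace Pool.Agent.Helper32.FTGron

open Set Filter Topology MeasureTheory

/-- differentiation under the integral sign -/
lemma hasDerivAt_int {F F' : ℝ → ℝ → ℝ} (hF : Continuous (fun z : ℝ × ℝ => F z.1 z.2))
    (hF' : Continuous (fun z : ℝ × ℝ => F' z.1 z.2))
    (hd : ∀ x s, HasDerivAt (fun x => F x s) (F' x s) x) (x : ℝ) :
    HasDerivAt (fun x => ∫ s in (0:ℝ)..1, F x s) (∫ s in (0:ℝ)..1, F' x s) x := by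
  have hK : IsCompact (Metric.closedBall x 1 ×ˢ Icc (0:ℝ) 1) :=
    (isCompact_closedBall x 1).prod isCompact_Icc
  obtain ⟨B, hB⟩ := hK.exists_bound_of_continuousOn hF'.continuousOn
  have hs : ∀ y, Continuous (fun s => F y s) := fun y => hF.comp (Continuous.prodMk_right y)
  have hs' : ∀ y, Continuous (fun s => F' y s) := fun y => hF'.comp (Continuous.prodMk_right y)
  refine (intervalIntegral.hasDerivAt_integral_of_dominated_loc_of_deriv_le
    (F := F) (F' := F') (x₀ := x) (s := Metric.ball x 1) (bound := fun _ => B)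
    (Metric.ball_mem_nhds x one_pos) ?_ ?_ ?_ ?_ ?_ ?_).2
  · exact Eventually.of_forall fun y => (hs y).aestronglyMeasurable
  · exact (hs x).intervalIntegrable _ _
  · exact (hs' x).aestronglyMeasurable
  · refine Eventually.of_forall fun t ht y hy => ?_
    rw [uIoc_of_le zero_le_one] at ht
    exact hB (y, t) ⟨Metric.ball_subset_closedBall hy, ht.1.le, ht.2⟩
  · exact intervalIntegrable_const
  · exact Eventually.of_forall fun t _ y _ => hd y t

/-- Fubini for continuous functions on a rectangle -/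
lemma swap_int {F : ℝ → ℝ → ℝ} (hF : Continuous (fun z : ℝ × ℝ => F z.1 z.2)) {a b c d : ℝ}
    (hab : a ≤ b) (hcd : c ≤ d) :
    ∫ x in a..b, ∫ s in c..d, F x s = ∫ s in c..d, ∫ x in a..b, F x s := by
  simp only [intervalIntegral.integral_of_le hab, intervalIntegral.integral_of_le hcd]
  refine integral_integral_swap ?_
  rw [Measure.prod_restrict]
  have hK : IsCompact (Icc a b ×ˢ Icc c d) := isCompact_Icc.prod isCompact_Icc
  have h1 : IntegrableOn (Function.uncurry F) (Icc a b ×ˢ Icc c d)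
      ((volume : Measure ℝ).prod (volume : Measure ℝ)) := by
    have h2 : ContinuousOn (Function.uncurry F) (Icc a b ×ˢ Icc c d) := by
      have : Function.uncurry F = fun z : ℝ × ℝ => F z.1 z.2 := by
        ext z
        rfl
      rw [this]
      exact hF.continuousOn
    exact h2.integrableOn_compact hK
  exact h1.mono_set (prod_mono Ioc_subset_Icc_self Ioc_subset_Icc_self)

theorem gron_core (N : ℕ) (q J Jx : ℕ → ℝ → ℝ → ℝ) (W P Ga G2 A : ℝ → ℝ → ℝ)
    {Jm JM Bx k C M c : ℝ}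
    (hq : ∀ n x s, HasDerivAt (fun x => q n x s) (J n x s) x)
    (hJ : ∀ n x s, HasDerivAt (fun x => J n x s) (Jx n x s) x)
    (hqc : ∀ n, Continuous (fun z : ℝ × ℝ => q n z.1 z.2))
    (hJc : ∀ n, Continuous (fun z : ℝ × ℝ => J n z.1 z.2))
    (hJxc : ∀ n, Continuous (fun z : ℝ × ℝ => Jx n z.1 z.2))
    (hqper : ∀ x s, q 0 (x + 1) s = q 0 x s + 1)
    (hJm : 0 < Jm) (hk : 0 < k) (hC : 0 < C) (hM : 0 < M)
    (hJb : ∀ n ≤ N, ∀ x s, Jm ≤ J n x s ∧ J n x s ≤ JM ∧ |Jx n x s| ≤ Bx)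
    (hWc : Continuous (fun z : ℝ × ℝ => W z.1 z.2))
    (hPc : Continuous (fun z : ℝ × ℝ => P z.1 z.2))
    (hGc : Continuous (fun z : ℝ × ℝ => Ga z.1 z.2))
    (hG2c : Continuous (fun z : ℝ × ℝ => G2 z.1 z.2))
    (hAc : Continuous (fun z : ℝ × ℝ => A z.1 z.2))
    (hA : ∀ x s, HasDerivAt (fun x => Ga x s) (A x s) x)
    (hb : ∀ x s, 0 ≤ W x s ∧ k * W x s ≤ Ga x s ∧ Ga x s ≤ C * W x s ∧
      |G2 x s| ≤ C * W x s ∧ P x s ≤ M * W x s)
    (hPper : ∀ x s, P (x + 1) s = P x s)
    (hPint : ∀ s, ∫ x in (0:ℝ)..1, P x s = c)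
    (hkey : ∀ x, ∑ n ∈ Finset.range (N + 1), ∫ s in (0:ℝ)..1, A (q n x s) s
      = ∑ n ∈ Finset.range (N + 1), ∫ s in (0:ℝ)..1, G2 (q n x s) s) (x : ℝ) :
    c ≤ (JM ^ 2 * M / k) * (Real.exp (C * JM / k + Bx / Jm) * ((C / Jm) *
      ∑ n ∈ Finset.range (N + 1), ∫ s in (0:ℝ)..1, W (q n x s) s)) := by
  have hJM : 0 < JM := hJm.trans_le ((hJb 0 (Nat.zero_le N) 0 0).1.trans
    (hJb 0 (Nat.zero_le N) 0 0).2.1)
  have hBx : 0 ≤ Bx := (abs_nonneg _).trans (hJb 0 (Nat.zero_le N) 0 0).2.2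
  have hJpos : ∀ n ≤ N, ∀ x s, 0 < J n x s := fun n hn x s => hJm.trans_le (hJb n hn x s).1
  have hqs : ∀ n, Continuous (fun z : ℝ × ℝ => ((q n z.1 z.2, z.2) : ℝ × ℝ)) := fun n =>
    (hqc n).prodMk continuous_snd
  have cW : ∀ n, Continuous (fun z : ℝ × ℝ => W (q n z.1 z.2) z.2) := fun n => hWc.comp (hqs n)
  have cP : ∀ n, Continuous (fun z : ℝ × ℝ => P (q n z.1 z.2) z.2) := fun n => hPc.comp (hqs n)
  have cG : ∀ n, Continuous (fun z : ℝ × ℝ => Ga (q n z.1 z.2) z.2) := fun n => hGc.comp (hqs n)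
  have cG2 : ∀ n, Continuous (fun z : ℝ × ℝ => G2 (q n z.1 z.2) z.2) := fun n =>
    hG2c.comp (hqs n)
  have cA : ∀ n, Continuous (fun z : ℝ × ℝ => A (q n z.1 z.2) z.2) := fun n => hAc.comp (hqs n)
  have slice : ∀ {f : ℝ → ℝ → ℝ}, Continuous (fun z : ℝ × ℝ => f z.1 z.2) → ∀ y,
      Continuous (fun s => f y s) := fun hf y => hf.comp (Continuous.prodMk_right y)
  set K2 : ℝ := C * JM / k + Bx / Jm with hK2
  have hK20 : 0 ≤ K2 := by positivity
  -- the function and its derivative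
  let Φ : ℕ → ℝ → ℝ → ℝ := fun n x s => Ga (q n x s) s / J n x s
  let Φ' : ℕ → ℝ → ℝ → ℝ := fun n x s =>
    A (q n x s) s - Ga (q n x s) s * Jx n x s / (J n x s) ^ 2
  let Ψ : ℕ → ℝ → ℝ → ℝ := fun n x s =>
    G2 (q n x s) s - Ga (q n x s) s * Jx n x s / (J n x s) ^ 2
  have cΦ : ∀ n ≤ N, Continuous (fun z : ℝ × ℝ => Φ n z.1 z.2) := fun n hn =>
    (cG n).div (hJc n) (fun z => (hJpos n hn z.1 z.2).ne')
  have cR : ∀ n ≤ N, Continuous
      (fun z : ℝ × ℝ => Ga (q n z.1 z.2) z.2 * Jx n z.1 z.2 / (J n z.1 z.2) ^ 2) := fun n hn =>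
    ((cG n).mul (hJxc n)).div ((hJc n).pow 2) (fun z => pow_ne_zero 2 (hJpos n hn z.1 z.2).ne')
  have cΦ' : ∀ n ≤ N, Continuous (fun z : ℝ × ℝ => Φ' n z.1 z.2) := fun n hn =>
    (cA n).sub (cR n hn)
  have cΨ : ∀ n ≤ N, Continuous (fun z : ℝ × ℝ => Ψ n z.1 z.2) := fun n hn =>
    (cG2 n).sub (cR n hn)
  have dΦ : ∀ n ≤ N, ∀ x s, HasDerivAt (fun x => Φ n x s) (Φ' n x s) x := by
    intro n hn x s
    have hJ0 := (hJpos n hn x s).ne'
    have h1 : HasDerivAt (fun x => Ga (q n x s) s) (A (q n x s) s * J n x s) x :=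
      HasDerivAt.comp (h₂ := fun y => Ga y s) x (hA (q n x s) s) (hq n x s)
    have h2 := h1.fun_div (hJ n x s) hJ0
    refine h2.congr_deriv ?_
    simp only [Φ']
    field_simp
  have hΦ0 : ∀ n ≤ N, ∀ x s, 0 ≤ Φ n x s := by
    intro n hn x s
    obtain ⟨h1, h2, -⟩ := hb (q n x s) s
    have h3 : 0 ≤ Ga (q n x s) s := (by positivity : 0 ≤ k * W (q n x s) s).trans h2
    exact div_nonneg h3 (hJpos n hn x s).le
  have hΨb : ∀ n ≤ N, ∀ x s, Ψ n x s ≤ K2 * Φ n x s := by
    intro n hn x s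
    obtain ⟨h1, h2, h3, h4, h5⟩ := hb (q n x s) s
    obtain ⟨j1, j2, j3⟩ := hJb n hn x s
    have hj := hJpos n hn x s
    have hG0 : 0 ≤ Ga (q n x s) s := (by positivity : 0 ≤ k * W (q n x s) s).trans h2
    have e1 : G2 (q n x s) s ≤ C * JM / k * Φ n x s := by
      have e2 : G2 (q n x s) s ≤ C * W (q n x s) s := (le_abs_self _).trans h4
      have e3 : W (q n x s) s ≤ Ga (q n x s) s / k := by
        rw [le_div_iff₀ hk]
        linarith
      have e4 : Ga (q n x s) s = J n x s * Φ n x s := by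
        simp only [Φ]
        field_simp
      have e5 : J n x s * Φ n x s ≤ JM * Φ n x s :=
        mul_le_mul_of_nonneg_right j2 (hΦ0 n hn x s)
      calc G2 (q n x s) s ≤ C * W (q n x s) s := e2
        _ ≤ C * (Ga (q n x s) s / k) := by gcongr
        _ ≤ C * ((JM * Φ n x s) / k) := by rw [e4]; gcongr
        _ = C * JM / k * Φ n x s := by ring
    have e6 : -(Ga (q n x s) s * Jx n x s / (J n x s) ^ 2) ≤ Bx / Jm * Φ n x s := by
      have e7 : -(Ga (q n x s) s * Jx n x s / (J n x s) ^ 2)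
          = Φ n x s * (-(Jx n x s) / J n x s) := by
        simp only [Φ]
        field_simp
      rw [e7, mul_comm]
      refine mul_le_mul_of_nonneg_right ?_ (hΦ0 n hn x s)
      have e8 : -(Jx n x s) ≤ Bx := (neg_le_abs _).trans j3
      calc -(Jx n x s) / J n x s ≤ Bx / J n x s := by gcongr
        _ ≤ Bx / Jm := by gcongr
    simp only [Ψ]
    rw [hK2, add_mul]
    linarith
  let Mf : ℝ → ℝ := fun x => ∑ n ∈ Finset.range (N + 1), ∫ s in (0:ℝ)..1, Φ n x s
  have hnr : ∀ n ∈ Finset.range (N + 1), n ≤ N := fun n hn => by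
    have := Finset.mem_range.1 hn
    omega
  have dMf : ∀ x, HasDerivAt Mf (∑ n ∈ Finset.range (N + 1), ∫ s in (0:ℝ)..1, Ψ n x s) x := by
    intro x
    have h1 : HasDerivAt Mf (∑ n ∈ Finset.range (N + 1), ∫ s in (0:ℝ)..1, Φ' n x s) x :=
      HasDerivAt.fun_sum fun n hn => hasDerivAt_int (cΦ n (hnr n hn)) (cΦ' n (hnr n hn))
        (dΦ n (hnr n hn)) x
    refine h1.congr_deriv ?_
    have h2 : ∀ n ∈ Finset.range (N + 1), ∫ s in (0:ℝ)..1, Φ' n x s
        = (∫ s in (0:ℝ)..1, A (q n x s) s)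
          - ∫ s in (0:ℝ)..1, Ga (q n x s) s * Jx n x s / (J n x s) ^ 2 := fun n hn =>
      intervalIntegral.integral_sub ((slice (f := fun x s => A (q n x s) s) (cA n) x).intervalIntegrable _ _)
        ((slice (f := fun x s => Ga (q n x s) s * Jx n x s / (J n x s) ^ 2)
          (cR n (hnr n hn)) x).intervalIntegrable _ _)
    have h3 : ∀ n ∈ Finset.range (N + 1), ∫ s in (0:ℝ)..1, Ψ n x s
        = (∫ s in (0:ℝ)..1, G2 (q n x s) s)
          - ∫ s in (0:ℝ)..1, Ga (q n x s) s * Jx n x s / (J n x s) ^ 2 := fun n hn =>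
      intervalIntegral.integral_sub ((slice (f := fun x s => G2 (q n x s) s) (cG2 n) x).intervalIntegrable _ _)
        ((slice (f := fun x s => Ga (q n x s) s * Jx n x s / (J n x s) ^ 2)
          (cR n (hnr n hn)) x).intervalIntegrable _ _)
    rw [Finset.sum_congr rfl h2, Finset.sum_congr rfl h3, Finset.sum_sub_distrib,
      Finset.sum_sub_distrib, hkey x]
  have hMf0 : ∀ x, 0 ≤ Mf x := fun x => Finset.sum_nonneg fun n hn =>
    intervalIntegral.integral_nonneg zero_le_one fun s _ => hΦ0 n (hnr n hn) x s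
  have hMfd : ∀ x, (∑ n ∈ Finset.range (N + 1), ∫ s in (0:ℝ)..1, Ψ n x s) ≤ K2 * Mf x := by
    intro x
    simp only [Mf]
    rw [Finset.mul_sum]
    refine Finset.sum_le_sum fun n hn => ?_
    rw [← intervalIntegral.integral_const_mul]
    refine intervalIntegral.integral_mono_on zero_le_one
      ((slice (f := Ψ n) (cΨ n (hnr n hn)) x).intervalIntegrable _ _)
      (((slice (f := Φ n) (cΦ n (hnr n hn)) x).const_mul K2).intervalIntegrable _ _)
      fun s _ => hΨb n (hnr n hn) x s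
  -- Gronwall
  have hgr : ∀ y, x ≤ y → y ≤ x + 1 → Mf y ≤ Real.exp K2 * Mf x := by
    intro y hxy hy1
    have hd : ∀ z, HasDerivAt (fun z => Mf z * Real.exp (-(K2 * z)))
        ((∑ n ∈ Finset.range (N + 1), ∫ s in (0:ℝ)..1, Ψ n z s) * Real.exp (-(K2 * z))
          + Mf z * (Real.exp (-(K2 * z)) * (-(K2 * 1)))) z := by
      intro z
      have h1 : HasDerivAt (fun z => Real.exp (-(K2 * z)))
          (Real.exp (-(K2 * z)) * (-(K2 * 1))) z :=
        (((hasDerivAt_id' z).const_mul K2).fun_neg).exp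
      exact (dMf z).mul h1
    have hanti : Antitone (fun z => Mf z * Real.exp (-(K2 * z))) := by
      refine antitone_of_deriv_nonpos (fun z => (hd z).differentiableAt) fun z => ?_
      rw [(hd z).deriv]
      have := hMfd z
      have he := Real.exp_pos (-(K2 * z))
      nlinarith
    have h2 := hanti hxy
    simp only at h2
    have h3 : Mf y = Mf y * Real.exp (-(K2 * y)) * Real.exp (K2 * y) := by
      rw [mul_assoc, ← Real.exp_add]
      simp
    rw [h3]
    calc Mf y * Real.exp (-(K2 * y)) * Real.exp (K2 * y)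
        ≤ Mf x * Real.exp (-(K2 * x)) * Real.exp (K2 * y) := by gcongr
      _ = Real.exp (K2 * (y - x)) * Mf x := by
          rw [mul_assoc, ← Real.exp_add, mul_comm]
          congr 2
          ring
      _ ≤ Real.exp K2 * Mf x := by
          refine mul_le_mul_of_nonneg_right (Real.exp_le_exp.2 ?_) (hMf0 x)
          nlinarith
  have hMfc : Continuous Mf := by
    rw [continuous_iff_continuousAt]
    exact fun z => (dMf z).continuousAt
  have hupint : ∫ y in x..(x + 1), Mf y ≤ Real.exp K2 * Mf x := by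
    have h1 : ∫ y in x..(x + 1), Mf y ≤ ∫ y in x..(x + 1), Real.exp K2 * Mf x :=
      intervalIntegral.integral_mono_on (by linarith) (hMfc.intervalIntegrable _ _)
        intervalIntegrable_const fun y hy => hgr y hy.1 hy.2
    simpa using h1
  -- lower bound
  have hlow : k / (JM ^ 2 * M) * c ≤ ∫ y in x..(x + 1), Mf y := by
    let Θ : ℝ → ℝ → ℝ := fun y s => P (q 0 y s) s * J 0 y s
    have cΘ : Continuous (fun z : ℝ × ℝ => Θ z.1 z.2) := (cP 0).mul (hJc 0)
    have h1 : ∀ y, k / (JM ^ 2 * M) * ∫ s in (0:ℝ)..1, Θ y s ≤ Mf y := by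
      intro y
      have h2 : ∫ s in (0:ℝ)..1, Φ 0 y s ≤ Mf y := by
        refine Finset.single_le_sum (f := fun n => ∫ s in (0:ℝ)..1, Φ n y s) ?_
          (Finset.mem_range.2 (Nat.succ_pos N))
        intro n hn
        exact intervalIntegral.integral_nonneg zero_le_one fun s _ => hΦ0 n (hnr n hn) y s
      refine le_trans ?_ h2
      rw [← intervalIntegral.integral_const_mul]
      refine intervalIntegral.integral_mono_on zero_le_one
        (((slice (f := Θ) cΘ y).const_mul _).intervalIntegrable _ _)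
        ((slice (f := Φ 0) (cΦ 0 (Nat.zero_le N)) y).intervalIntegrable _ _) fun s _ => ?_
      obtain ⟨h1, h2, h3, h4, h5⟩ := hb (q 0 y s) s
      obtain ⟨j1, j2, j3⟩ := hJb 0 (Nat.zero_le N) y s
      have hj := hJpos 0 (Nat.zero_le N) y s
      have e1 : Θ y s ≤ M * W (q 0 y s) s * JM := by
        simp only [Θ]
        calc P (q 0 y s) s * J 0 y s ≤ (M * W (q 0 y s) s) * J 0 y s := by gcongr
          _ ≤ M * W (q 0 y s) s * JM := by gcongr
      have e2 : k * W (q 0 y s) s / JM ≤ Φ 0 y s := by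
        simp only [Φ]
        have hG0 : 0 ≤ Ga (q 0 y s) s := (by positivity : 0 ≤ k * W (q 0 y s) s).trans h2
        calc k * W (q 0 y s) s / JM ≤ Ga (q 0 y s) s / JM := by gcongr
          _ ≤ Ga (q 0 y s) s / J 0 y s := by gcongr
      calc k / (JM ^ 2 * M) * Θ y s ≤ k / (JM ^ 2 * M) * (M * W (q 0 y s) s * JM) := by gcongr
        _ = k * W (q 0 y s) s / JM := by field_simp
        _ ≤ Φ 0 y s := e2
    have h2 : ∫ y in x..(x + 1), k / (JM ^ 2 * M) * ∫ s in (0:ℝ)..1, Θ y s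
        ≤ ∫ y in x..(x + 1), Mf y := by
      refine intervalIntegral.integral_mono_on (by linarith) ?_ (hMfc.intervalIntegrable _ _)
        fun y _ => h1 y
      have : Continuous (fun y => ∫ s in (0:ℝ)..1, Θ y s) :=
        intervalIntegral.continuous_parametric_intervalIntegral_of_continuous'
          (f := Θ) (by simpa [Function.uncurry_def] using cΘ) 0 1
      exact (this.const_mul _).intervalIntegrable _ _
    rw [intervalIntegral.integral_const_mul, swap_int cΘ (by linarith) zero_le_one] at h2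
    have h3 : ∀ s, ∫ y in x..(x + 1), Θ y s = c := by
      intro s
      have hP : Continuous (fun u => P u s) := hPc.comp (Continuous.prodMk_left s)
      have h4 : ∫ y in x..(x + 1), ((fun u => P u s) ∘ (fun y => q 0 y s)) y * J 0 y s
          = ∫ u in q 0 x s..q 0 (x + 1) s, P u s :=
        intervalIntegral.integral_comp_mul_deriv (fun y _ => hq 0 y s)
          (((hJc 0).comp (Continuous.prodMk_left s)).continuousOn) hP
      have h5 : ∫ y in x..(x + 1), Θ y s = ∫ u in q 0 x s..q 0 (x + 1) s, P u s := h4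
      rw [h5, hqper]
      have hper : Function.Periodic (fun u => P u s) 1 := fun u => hPper u s
      rw [hper.intervalIntegral_add_eq (q 0 x s) 0, zero_add]
      exact hPint s
    simp only [h3] at h2
    simpa using h2
  have hup : Mf x ≤ (C / Jm) * ∑ n ∈ Finset.range (N + 1), ∫ s in (0:ℝ)..1, W (q n x s) s := by
    simp only [Mf]
    rw [Finset.mul_sum]
    refine Finset.sum_le_sum fun n hn => ?_
    rw [← intervalIntegral.integral_const_mul]
    refine intervalIntegral.integral_mono_on zero_le_one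
      ((slice (f := Φ n) (cΦ n (hnr n hn)) x).intervalIntegrable _ _)
      (((slice (f := fun x s => W (q n x s) s) (cW n) x).const_mul _).intervalIntegrable _ _)
      fun s _ => ?_
    obtain ⟨h1, h2, h3, h4, h5⟩ := hb (q n x s) s
    obtain ⟨j1, j2, j3⟩ := hJb n (hnr n hn) x s
    have hj := hJpos n (hnr n hn) x s
    simp only [Φ]
    calc Ga (q n x s) s / J n x s ≤ (C * W (q n x s) s) / J n x s := by gcongr
      _ ≤ (C * W (q n x s) s) / Jm := by gcongr
      _ = C / Jm * W (q n x s) s := by ring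
  have hfin : k / (JM ^ 2 * M) * c ≤ Real.exp K2 * ((C / Jm) *
      ∑ n ∈ Finset.range (N + 1), ∫ s in (0:ℝ)..1, W (q n x s) s) :=
    hlow.trans (hupint.trans (mul_le_mul_of_nonneg_left hup (Real.exp_pos _).le))
  have h9 : c = (JM ^ 2 * M / k) * (k / (JM ^ 2 * M) * c) := by
    field_simp
  rw [h9]
  exact mul_le_mul_of_nonneg_left hfin (by positivity)

end Pool.Agent.Helper32.FTGron
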