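import Mathlib

/-!
Packet FT-GRON, the dynamics of a periodic smooth leaf.
-/

set_option autoImplicit false

namespace Pool.Agent.Helper32.FTGron

open Set Filter Topology

/-- clamp to `[0, 1]` -/
noncomputable def cl (s : ℝ) : ℝ := max 0 (min s 1)

lemma cl_mem (s : ℝ) : cl s ∈ Icc (0:ℝ) 1 :=
  ⟨le_max_left _ _, max_le zero_le_one (min_le_right _ _)⟩

lemma cl_eq {s : ℝ} (hs : s ∈ Icc (0:ℝ) 1) : cl s = s := by
  rw [cl, min_eq_left hs.2, max_eq_right hs.1]

lemma cl_cont : Continuous cl := by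
  unfold cl
  fun_prop

lemma per_bound {f : ℝ → ℝ} (hf : Continuous f) (hp : ∀ x, f (x + 1) = f x) :
    ∃ B : ℝ, ∀ x, |f x| ≤ B := by
  obtain ⟨B, hB⟩ := (isCompact_Icc (a := (0:ℝ)) (b := 1)).exists_bound_of_continuousOn
    hf.continuousOn
  have hP : Function.Periodic f 1 := hp
  refine ⟨B, fun x => ?_⟩
  obtain ⟨y, hy, hxy⟩ := hP.exists_mem_Ico₀ one_pos x
  rw [hxy]
  exact hB y ⟨hy.1, hy.2.le⟩

lemma per_pos {f : ℝ → ℝ} (hf : Continuous f) (hp : ∀ x, f (x + 1) = f x) (h0 : ∀ x, 0 < f x) :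
    ∃ m : ℝ, 0 < m ∧ ∀ x, m ≤ f x := by
  obtain ⟨z, hz, hmin⟩ := (isCompact_Icc (a := (0:ℝ)) (b := 1)).exists_isMinOn
    (nonempty_Icc.2 zero_le_one) hf.continuousOn
  have hP : Function.Periodic f 1 := hp
  refine ⟨f z, h0 z, fun x => ?_⟩
  obtain ⟨y, hy, hxy⟩ := hP.exists_mem_Ico₀ one_pos x
  rw [hxy]
  exact hmin (show y ∈ Icc (0:ℝ) 1 from ⟨hy.1, hy.2.le⟩)

/-- uniform bounds for a finite family of periodic functions -/
lemma fam_bound {f : ℕ → ℝ → ℝ} (hf : ∀ n, Continuous (f n)) (hp : ∀ n x, f n (x + 1) = f n x)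
    (K : ℕ) : ∃ B : ℝ, ∀ n ≤ K, ∀ x, |f n x| ≤ B := by
  choose B hB using fun n => per_bound (hf n) (hp n)
  refine ⟨∑ n ∈ Finset.range (K + 1), |B n|, fun n hn x => (hB n x).trans ?_⟩
  refine (le_abs_self _).trans ?_
  exact Finset.single_le_sum (f := fun n => |B n|) (fun i _ => abs_nonneg _)
    (Finset.mem_range.2 (by omega))

lemma fam_pos {f : ℕ → ℝ → ℝ} (hf : ∀ n, Continuous (f n)) (hp : ∀ n x, f n (x + 1) = f n x)
    (h0 : ∀ n x, 0 < f n x) (K : ℕ) : ∃ m : ℝ, 0 < m ∧ ∀ n ≤ K, ∀ x, m ≤ f n x := by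
  choose m hm using fun n => per_pos (hf n) (hp n) (h0 n)
  obtain ⟨i, hi, hmin⟩ := Finset.exists_min_image (Finset.range (K + 1)) m
    ⟨0, Finset.mem_range.2 (Nat.succ_pos K)⟩
  exact ⟨m i, (hm i).1, fun n hn x => (hmin n (Finset.mem_range.2 (by omega))).trans
    ((hm n).2 x)⟩

/-- smooth iterates of a circle map -/
lemma iter_data {g : ℝ → ℝ} (hg : ContDiff ℝ 2 g) (hm : StrictMono g)
    (hper : ∀ x, g (x + 1) = g x + 1) {N : ℕ} {m : ℤ} (hN : ∀ x, g^[N + 1] x = x + m) :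
    ∃ (Xd Xdd : ℕ → ℝ → ℝ) (Jm JM Bx : ℝ), 0 < Jm ∧
      (∀ n x, HasStrictDerivAt (g^[n]) (Xd n x) x) ∧
      (∀ n x, HasDerivAt (Xd n) (Xdd n x) x) ∧ (∀ n, Continuous (Xdd n)) ∧
      (∀ n x, 0 < Xd n x) ∧ (∀ x, Xd 0 x = 1) ∧ (∀ x, Xd (N + 1) x = 1) ∧
      (∀ n ≤ N + 1, ∀ x, Jm ≤ Xd n x ∧ Xd n x ≤ JM ∧ |Xdd n x| ≤ Bx) := by
  have hX : ∀ n, ContDiff ℝ 2 (g^[n]) := by
    intro n
    induction n with
    | zero => exact contDiff_id
    | succ n ih =>
      rw [Function.iterate_succ]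
      exact ih.comp hg
  have hXd1 : ∀ n, ContDiff ℝ 1 (deriv (g^[n])) := fun n =>
    (hX n).iterate_deriv' 1 1
  have hXdd1 : ∀ n, Continuous (deriv (deriv (g^[n]))) := fun n =>
    (hXd1 n).continuous_deriv le_rfl
  have hXper : ∀ n x, g^[n] (x + 1) = g^[n] x + 1 := by
    intro n
    induction n with
    | zero => exact fun x => rfl
    | succ n ih =>
      intro x
      rw [Function.iterate_succ_apply, Function.iterate_succ_apply, hper, ih]
  have hXd : ∀ n x, HasStrictDerivAt (g^[n]) (deriv (g^[n]) x) x := fun n x =>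
    (hX n).hasStrictDerivAt (by norm_num)
  have hXdd : ∀ n x, HasDerivAt (deriv (g^[n])) (deriv (deriv (g^[n])) x) x := fun n x =>
    ((hXd1 n).differentiable (by norm_num) x).hasDerivAt
  have hgd : ∀ x, HasStrictDerivAt g (deriv g x) x := fun x =>
    hg.hasStrictDerivAt (by norm_num)
  have hlast : ∀ x, deriv (g^[N + 1]) x = 1 := by
    intro x
    have h1 : g^[N + 1] = fun x => x + (m : ℝ) := funext hN
    rw [h1]
    simp
  have hgpos : ∀ x, 0 < deriv g x := by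
    intro x
    have h1 : 0 ≤ deriv g x := hm.monotone.deriv_nonneg
    refine lt_of_le_of_ne h1 fun h2 => ?_
    have h3 : deriv (g^[N + 1]) x = deriv (g^[N]) (g x) * deriv g x := by
      rw [Function.iterate_succ]
      exact ((hXd N (g x)).hasDerivAt.comp x (hgd x).hasDerivAt).deriv
    rw [hlast, ← h2, mul_zero] at h3
    exact one_ne_zero h3
  have hpos : ∀ n x, 0 < deriv (g^[n]) x := by
    intro n
    induction n with
    | zero =>
      intro x
      simp
    | succ n ih =>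
      intro x
      have h3 : deriv (g^[n + 1]) x = deriv (g^[n]) (g x) * deriv g x := by
        rw [Function.iterate_succ]
        exact ((hXd n (g x)).hasDerivAt.comp x (hgd x).hasDerivAt).deriv
      rw [h3]
      exact mul_pos (ih _) (hgpos x)
  have hdper : ∀ n x, deriv (g^[n]) (x + 1) = deriv (g^[n]) x := by
    intro n x
    have h1 : (fun y => g^[n] (y + 1)) = fun y => g^[n] y + 1 := funext (hXper n)
    have h2 : deriv (fun y => g^[n] (y + 1)) x = deriv (g^[n]) (x + 1) :=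
      deriv_comp_add_const _ _ _
    rw [← h2, h1, deriv_add_const]
  have hddper : ∀ n x, deriv (deriv (g^[n])) (x + 1) = deriv (deriv (g^[n])) x := by
    intro n x
    have h1 : (fun y => deriv (g^[n]) (y + 1)) = fun y => deriv (g^[n]) y := funext (hdper n)
    have h2 : deriv (fun y => deriv (g^[n]) (y + 1)) x = deriv (deriv (g^[n])) (x + 1) :=
      deriv_comp_add_const _ _ _
    rw [← h2, h1]
  obtain ⟨Jm, hJm, hJm'⟩ := fam_pos (fun n => (hXd1 n).continuous) hdper hpos (N + 1)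
  obtain ⟨JM, hJM⟩ := fam_bound (fun n => (hXd1 n).continuous) hdper (N + 1)
  obtain ⟨Bx, hBx⟩ := fam_bound hXdd1 hddper (N + 1)
  refine ⟨fun n => deriv (g^[n]), fun n => deriv (deriv (g^[n])), Jm, JM, Bx, hJm, hXd, hXdd,
    hXdd1, hpos, fun x => by simp, hlast, fun n hn x => ⟨hJm' n hn x, ?_, hBx n hn x⟩⟩
  exact (le_abs_self _).trans (hJM n hn x)

/-- derivative of a function which is known along a diffeomorphism -/
lemma deriv_along {Q F v : ℝ → ℝ} {J v' x : ℝ} (hQ : HasStrictDerivAt Q J x) (hJ : J ≠ 0)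
    (hv : HasDerivAt v v' x) (hF : ∀ y, F (Q y) = v y) : HasDerivAt F (v' / J) (Q x) := by
  have h1 := hQ.to_localInverse hJ
  have h2 : ∀ᶠ z in 𝓝 (Q x), Q (hQ.localInverse Q J x hJ z) = z :=
    HasStrictFDerivAt.eventually_right_inverse _
  have h3 : hQ.localInverse Q J x hJ (Q x) = x := HasStrictFDerivAt.localInverse_apply_image _
  have h4 : HasDerivAt (fun z => v (hQ.localInverse Q J x hJ z)) (v' * J⁻¹) (Q x) := by
    have h5 : HasDerivAt v v' (hQ.localInverse Q J x hJ (Q x)) := by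
      rw [h3]
      exact hv
    exact h5.comp (Q x) h1.hasDerivAt
  have h6 : F =ᶠ[𝓝 (Q x)] fun z => v (hQ.localInverse Q J x hJ z) := by
    filter_upwards [h2] with z hz
    rw [← hF, hz]
  rw [div_eq_mul_inv]
  exact h4.congr_of_eventuallyEq h6

end Pool.Agent.Helper32.FTGron
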