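import Pool.Agent.Helper76.FT.GoalsC
import Pool.Agent.Helper32.FT.GronCore
import Pool.Agent.Helper32.FT.GronDyn

/-!
Packet FT-GRON: Harnack type inequality along a periodic leaf.
-/

set_option autoImplicit false

namespace Pool.Agent.Helper32.FTGron

open Complex Set Filter Topology Pool.Agent.Helper76.FT

lemma hasDerivAt_im {f : ℝ → ℂ} {f' : ℂ} {x : ℝ} (h : HasDerivAt f f' x) :
    HasDerivAt (fun x => (f x).im) f'.im x := by
  exact Complex.imCLM.hasFDerivAt.comp_hasDerivAt x h

/-- composition of a continuous function on the strip with a clamped curve -/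
lemma cont_clamp {E : Type*} [TopologicalSpace E] {f : ℝ → ℝ → E}
    (hf : ContinuousOn (fun z : ℝ × ℝ => f z.1 z.2) (univ ×ˢ Icc (0:ℝ) 1)) :
    Continuous (fun z : ℝ × ℝ => f z.1 (cl z.2)) := by
  have h1 : Continuous (fun z : ℝ × ℝ => ((z.1, cl z.2) : ℝ × ℝ)) :=
    continuous_fst.prodMk (cl_cont.comp continuous_snd)
  exact hf.comp_continuous h1 fun z => ⟨mem_univ _, cl_mem _⟩

lemma sh_real {f : ℂ → ℝ → ℂ} {ρ : ℝ} (hρ : 0 < ρ) (hf : SH f ρ) :
    ContinuousOn (fun z : ℝ × ℝ => f (z.1 : ℂ) z.2) (univ ×ˢ Icc (0:ℝ) 1) := by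
  have h1 : ContinuousOn (fun z : ℝ × ℝ => (((z.1 : ℂ), z.2) : ℂ × ℝ)) (univ ×ˢ Icc (0:ℝ) 1) :=
    (by fun_prop : Continuous (fun z : ℝ × ℝ => (((z.1 : ℂ), z.2) : ℂ × ℝ))).continuousOn
  refine hf.cont.comp h1 fun z hz => ⟨?_, hz.2⟩
  show |((z.1 : ℂ)).im| < ρ
  simpa using hρ

theorem ft_gron : GReg → GMom → GTorP → GLeaf → GGron := by
  intro hReg hMom hTorP hLeaf S hS
  obtain ⟨R1, R2, R3, R4, R5, R6, R7, R8, R9, R10, R11, R12, R13⟩ := hReg S hS
  obtain ⟨k0, M0, hk0, hM0, -, -, hMomt⟩ := hMom S hS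
  obtain ⟨k1, M, hk1, hM, hTP⟩ := hTorP S hS
  obtain ⟨δ₀, hδ₀, hL⟩ := hLeaf S hS
  refine ⟨δ₀, hδ₀, fun Y hY N m hN hanal => ?_⟩
  obtain ⟨k, C, Γ, Γ₂, hk, hC, hLw⟩ := hL Y hY N m hN hanal
  obtain ⟨gmono, -, -, -, hg4⟩ := R10 Y hY
  have hgper : ∀ x, S.g Y (x + 1) = S.g Y x + 1 := fun x => (hg4 x).2.2.1
  have hgC : ContDiff ℝ 2 (S.g Y) := by
    have h1 : ContDiff ℝ 2 (fun x : ℝ => S.V Y x 0) := hanal.contDiff
    exact contDiff_id.add h1
  obtain ⟨Xd, Xdd, Jm, JM, Bx, hJm, hXd, hXdd, hXddc, hXdpos, hXd0, hXdN, hXb⟩ :=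
    iter_data hgC gmono hgper hN
  -- the orbit
  set X : ℕ → ℝ → ℝ := fun n => (S.g Y)^[n] with hXdef
  have hXs : ∀ n x, X (n + 1) x = X n x + S.V Y (X n x) 0 := by
    intro n x
    simp only [hXdef]
    rw [Function.iterate_succ_apply']
    rfl
  have hXper : ∀ n x, X n (x + 1) = X n x + 1 := by
    intro n
    induction n with
    | zero => exact fun x => rfl
    | succ n ih =>
      intro x
      simp only [hXdef] at ih ⊢
      rw [Function.iterate_succ_apply, Function.iterate_succ_apply, hgper, ih]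
  have horb : ∀ (n : ℕ) x, S.orb Y x (n : ℤ) = X n x := fun n x => rfl
  have hvel : ∀ (n : ℕ) x, S.vel Y x (n : ℤ) = X (n + 1) x - X n x := by
    intro n x
    rw [hXs]
    show S.V Y (X n x) 0 = _
    ring
  -- the constants
  have hJM : 0 < JM := hJm.trans_le ((hXb 0 (Nat.zero_le _) 0).1.trans (hXb 0 (Nat.zero_le _) 0).2.1)
  have hBx : 0 ≤ Bx := (abs_nonneg _).trans (hXb 0 (Nat.zero_le _) 0).2.2
  refine ⟨(JM ^ 2 * M / k) * (Real.exp (C * JM / k + Bx / Jm) * (C / Jm)), by positivity, ?_⟩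
  intro δ ρ w c hδ hw x
  obtain ⟨hpos, hΓc, hΓ₂c, A', hA'c, hA'⟩ := hLw δ ρ w c hδ hw
  obtain ⟨SHp, SHe, hp10, -, -, hint, hbd⟩ := hTP δ ρ w c hw
  have hρ := hw.hρ
  have hreal : ∀ y : ℝ, (y : ℂ) ∈ Str ρ := by
    intro y
    show |((y : ℂ)).im| < ρ
    simpa using hρ
  -- convex combinations
  let q : ℕ → ℝ → ℝ → ℝ := fun n x s => X n x + cl s * (X (n + 1) x - X n x)
  let J : ℕ → ℝ → ℝ → ℝ := fun n x s => Xd n x + cl s * (Xd (n + 1) x - Xd n x)
  let Jx : ℕ → ℝ → ℝ → ℝ := fun n x s => Xdd n x + cl s * (Xdd (n + 1) x - Xdd n x)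
  have hXc : ∀ n, Continuous (X n) := fun n =>
    continuous_iff_continuousAt.2 fun y => (hXd n y).hasDerivAt.continuousAt
  have hXdc : ∀ n, Continuous (Xd n) := fun n =>
    continuous_iff_continuousAt.2 fun y => (hXdd n y).continuousAt
  have hcc : ∀ {f g : ℝ → ℝ}, Continuous f → Continuous g →
      Continuous (fun z : ℝ × ℝ => f z.1 + cl z.2 * (g z.1 - f z.1)) := by
    intro f g hf hg
    have h1 := hf.comp (continuous_fst (X := ℝ) (Y := ℝ))
    have h2 := hg.comp (continuous_fst (X := ℝ) (Y := ℝ))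
    have h3 := cl_cont.comp (continuous_snd (X := ℝ) (Y := ℝ))
    exact h1.add (h3.mul (h2.sub h1))
  have hJb : ∀ n ≤ N, ∀ x s, Jm ≤ J n x s ∧ J n x s ≤ JM ∧ |Jx n x s| ≤ Bx := by
    intro n hn x s
    obtain ⟨a1, a2, a3⟩ := hXb n (by omega) x
    obtain ⟨b1, b2, b3⟩ := hXb (n + 1) (by omega) x
    obtain ⟨s0, s1⟩ := cl_mem s
    rw [abs_le] at a3 b3
    simp only [J, Jx]
    refine ⟨by nlinarith, by nlinarith, abs_le.2 ⟨by nlinarith [a3.1, b3.1], by nlinarith [a3.2, b3.2]⟩⟩
  have hJpos : ∀ n x s, 0 < J n x s := by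
    intro n x s
    have h1 := hXdpos n x
    have h2 := hXdpos (n + 1) x
    obtain ⟨s0, s1⟩ := cl_mem s
    simp only [J]
    rcases eq_or_lt_of_le s0 with h | h
    · rw [← h]
      linarith
    · nlinarith [mul_pos h h2, mul_nonneg (sub_nonneg.2 s1) h1.le]
  have hwc := sh_real hρ hw.sh
  have hpc := sh_real hρ SHp
  -- the key identity
  have hkeyC : ∀ y : ℝ, ∑ n ∈ Finset.range (N + 1), ∫ s in (0:ℝ)..1,
      (-(A' (q n y s) (cl s)) + Γ₂ (cl s) (q n y s) (w (q n y s : ℂ) (cl s))) = 0 := by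
    intro y
    let v : ℕ → ℝ := fun n => X (n + 1) y - X n y
    let Pd : ℝ → ℂ := fun z => S.p 0 (z : ℂ) (w (z : ℂ) 0) - S.p 0 (z : ℂ) (S.V Y z 0 : ℂ)
    let B : ℕ → ℂ := fun n => Complex.log (Pd (X n y)) + ((Real.log (Xd n y) : ℝ) : ℂ)
    have hv0 : ∀ n, S.V Y (X n y) 0 = v n := fun n => by
      simp only [v]
      rw [hXs]
      ring
    have hline : ∀ n, ∀ s ∈ Icc (0:ℝ) 1, ∀ z, S.V Y (X n z + s * (X (n + 1) z - X n z)) s
        = X (n + 1) z - X n z := by
      intro n s hs z
      have h1 := hS.Vline Y hY (X n z) s hs 0 (left_mem_Icc.2 zero_le_one)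
      have h2 : S.V Y (X n z) 0 = X (n + 1) z - X n z := by
        rw [hXs]
        ring
      rw [sub_zero, h2] at h1
      exact h1
    have hstep : ∀ n, ∫ s in (0:ℝ)..1,
        (-(A' (q n y s) (cl s)) + Γ₂ (cl s) (q n y s) (w (q n y s : ℂ) (cl s)))
        = B (n + 1) - B n := by
      intro n
      let H : ℝ → ℂ := fun s => Complex.log
          (S.p s ((X n y + s * v n : ℝ) : ℂ) (w ((X n y + s * v n : ℝ) : ℂ) s)
            - S.p s ((X n y + s * v n : ℝ) : ℂ) (v n : ℂ))
          + ((Real.log (Xd n y + s * (Xd (n + 1) y - Xd n y)) : ℝ) : ℂ)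
      have hH : ∀ s ∈ Icc (0:ℝ) 1, HasDerivWithinAt H
          (-(A' (q n y s) (cl s)) + Γ₂ (cl s) (q n y s) (w (q n y s : ℂ) (cl s)))
          (Icc (0:ℝ) 1) s := by
        intro s hs
        have e1 : cl s = s := cl_eq hs
        have e2 : q n y s = X n y + s * v n := by
          simp only [q, v, e1]
        have hJ1 : 0 < Xd n y + s * (Xd (n + 1) y - Xd n y) := by
          have := hJpos n y s
          simp only [J, e1] at this
          exact this
        obtain ⟨-, hd⟩ := hA' (q n y s) s hs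
        -- the derivative of the leaf
        have hV : HasDerivAt (fun z => S.V Y z s)
            ((Xd (n + 1) y - Xd n y) / (Xd n y + s * (Xd (n + 1) y - Xd n y)))
            (X n y + s * v n) := by
          have hQ : HasStrictDerivAt (fun z => X n z + s * (X (n + 1) z - X n z))
              (Xd n y + s * (Xd (n + 1) y - Xd n y)) y :=
            (hXd n y).fun_add (((hXd (n + 1) y).fun_sub (hXd n y)).const_mul s)
          have hv : HasDerivAt (fun z => X (n + 1) z - X n z) (Xd (n + 1) y - Xd n y) y :=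
            ((hXd (n + 1) y).fun_sub (hXd n y)).hasDerivAt
          exact deriv_along (Q := fun z => X n z + s * (X (n + 1) z - X n z))
            (F := fun z => S.V Y z s) (v := fun z => X (n + 1) z - X n z)
            hQ hJ1.ne' hv (hline n s hs)
        have hlog : HasDerivWithinAt
            (fun s : ℝ => ((Real.log (Xd n y + s * (Xd (n + 1) y - Xd n y)) : ℝ) : ℂ))
            (((Xd (n + 1) y - Xd n y) / (Xd n y + s * (Xd (n + 1) y - Xd n y)) : ℝ) : ℂ)
            (Icc (0:ℝ) 1) s := by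
          have h1 : HasDerivAt (fun s : ℝ => Xd n y + s * (Xd (n + 1) y - Xd n y))
              (Xd (n + 1) y - Xd n y) s := by
            have := ((hasDerivAt_id' s).mul_const (Xd (n + 1) y - Xd n y)).const_add (Xd n y)
            simpa using this
          exact ((h1.log hJ1.ne').ofReal_comp).hasDerivWithinAt
        rw [e1, e2] at *
        have hvs : S.V Y (X n y + s * v n) s = v n := hline n s hs y
        rw [hvs, hV.deriv] at hd
        have hsum := hd.fun_add hlog
        have hfin : HasDerivWithinAt H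
            ((-(((Xd (n + 1) y - Xd n y) / (Xd n y + s * (Xd (n + 1) y - Xd n y)) : ℝ) : ℂ)
              - A' (X n y + s * v n) s
              + Γ₂ s (X n y + s * v n) (w ((X n y + s * v n : ℝ) : ℂ) s))
              + (((Xd (n + 1) y - Xd n y) / (Xd n y + s * (Xd (n + 1) y - Xd n y)) : ℝ) : ℂ))
            (Icc (0:ℝ) 1) s := by
          refine hsum.congr (fun τ hτ => ?_) ?_
          · have e3 : X n y + s * v n + (τ - s) * v n = X n y + τ * v n := by ring
            simp only [H, e3]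
          · have e3 : X n y + s * v n + (s - s) * v n = X n y + s * v n := by ring
            simp only [H, e3]
        exact hfin.congr_deriv (by ring)
      have hcont : ContinuousOn (fun s =>
          (-(A' (q n y s) (cl s)) + Γ₂ (cl s) (q n y s) (w (q n y s : ℂ) (cl s))))
          (Icc (0:ℝ) 1) := by
        have hqs : Continuous (fun s : ℝ => ((q n y s, cl s) : ℝ × ℝ)) :=
          ((hcc (hXc n) (hXc (n + 1))).comp (Continuous.prodMk_right y)).prodMk cl_cont
        have h1 : Continuous (fun s : ℝ => A' (q n y s) (cl s)) :=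
          hA'c.comp_continuous hqs fun s => ⟨mem_univ _, cl_mem _⟩
        have h2 : Continuous (fun s : ℝ => Γ₂ (cl s) (q n y s) (w (q n y s : ℂ) (cl s))) :=
          hΓ₂c.comp_continuous hqs fun s => ⟨mem_univ _, cl_mem _⟩
        exact (h1.neg.add h2).continuousOn
      have hftc := intervalIntegral.integral_eq_sub_of_hasDerivAt_of_le zero_le_one
        (fun s hs => (hH s hs).continuousWithinAt)
        (fun s hs => (hH s (Ioo_subset_Icc_self hs)).hasDerivAt (Icc_mem_nhds hs.1 hs.2))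
        (by
          apply ContinuousOn.intervalIntegrable
          rw [uIcc_of_le zero_le_one]
          exact hcont)
      rw [hftc]
      have hH0 : H 0 = B n := by
        simp only [H, B, Pd, zero_mul, add_zero]
        rw [hv0]
      have hH1 : H 1 = B (n + 1) := by
        have e4 : X n y + 1 * v n = X (n + 1) y := by
          simp only [v]
          ring
        have e5 : Xd n y + 1 * (Xd (n + 1) y - Xd n y) = Xd (n + 1) y := by ring
        have e6 : S.V Y (X (n + 1) y) 1 = v n := by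
          have h1 := hline n 1 (right_mem_Icc.2 zero_le_one) y
          have h2 : X n y + 1 * (X (n + 1) y - X n y) = X (n + 1) y := by ring
          rw [h2] at h1
          exact h1
        have e7 : ((X (n + 1) y : ℂ), ((v n : ℝ) : ℂ)) ∈ S.Nb 1 S.r := by
          refine ⟨(X (n + 1) y, v n), ?_, ?_, ?_⟩
          · have := R2 1 (right_mem_Icc.2 zero_le_one) (X (n + 1) y) Y hY
            rwa [e6] at this
          · simpa using hS.hr
          · simpa using hS.hr
        have e8 := hS.kick _ e7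
        simp only at e8
        have e9 := hS.KV Y hY (X (n + 1) y)
        rw [e6] at e9
        rw [e9] at e8
        simp only [H, B, Pd, e4, e5]
        rw [hp10 _ (hreal _), e8]
      rw [hH0, hH1]
    rw [Finset.sum_congr rfl fun n _ => hstep n, Finset.sum_range_sub]
    have hPd1 : Function.Periodic Pd 1 := by
      intro z
      simp only [Pd]
      have h0 : (0:ℝ) ∈ Icc (0:ℝ) 1 := left_mem_Icc.2 zero_le_one
      have h1 := SHp.per (z : ℂ) (hreal z) 0 h0
      have h2 : ((z : ℂ), (S.V Y z 0 : ℂ)) ∈ S.Nb 0 S.r := by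
        refine ⟨(z, S.V Y z 0), R2 0 h0 z Y hY, ?_, ?_⟩
        · simpa using hS.hr
        · simpa using hS.hr
      have h3 := ((hMomt 0 h0).2.2 _ h2).2.2.2.2.2.2.2.1
      simp only at h3
      rw [hS.Vper Y hY z 0 h0]
      push_cast
      rw [h1, h3]
    have hB : B (N + 1) = B 0 := by
      simp only [B]
      have h1 : X (N + 1) y = y + (m : ℝ) * 1 := by
        rw [mul_one]
        exact hN y
      have h2 : X 0 y = y := rfl
      rw [h1, h2, (hPd1.int_mul m) y, hXd0, hXdN]
    rw [hB, sub_self]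
  have hI1 : ∀ n y, IntervalIntegrable (fun s => A' (q n y s) (cl s)) MeasureTheory.volume 0 1 := by
    intro n y
    have hqs : Continuous (fun s : ℝ => ((q n y s, cl s) : ℝ × ℝ)) :=
      ((hcc (hXc n) (hXc (n + 1))).comp (Continuous.prodMk_right y)).prodMk cl_cont
    have h1 : Continuous (fun s : ℝ => A' (q n y s) (cl s)) :=
      hA'c.comp_continuous hqs fun s => ⟨mem_univ _, cl_mem _⟩
    exact h1.intervalIntegrable _ _
  have hI2 : ∀ n y, IntervalIntegrable
      (fun s => Γ₂ (cl s) (q n y s) (w (q n y s : ℂ) (cl s))) MeasureTheory.volume 0 1 := by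
    intro n y
    have hqs : Continuous (fun s : ℝ => ((q n y s, cl s) : ℝ × ℝ)) :=
      ((hcc (hXc n) (hXc (n + 1))).comp (Continuous.prodMk_right y)).prodMk cl_cont
    have h1 : Continuous (fun s : ℝ => Γ₂ (cl s) (q n y s) (w (q n y s : ℂ) (cl s))) :=
      hΓ₂c.comp_continuous hqs fun s => ⟨mem_univ _, cl_mem _⟩
    exact h1.intervalIntegrable _ _
  have him : ∀ f : ℝ → ℂ, IntervalIntegrable f MeasureTheory.volume 0 1 →
      ∫ s in (0:ℝ)..1, (f s).im = (∫ s in (0:ℝ)..1, f s).im := by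
    intro f hf
    have := Complex.imCLM.intervalIntegral_comp_comm hf
    simpa using this
  have key := gron_core N q J Jx
    (fun z s => (w (z : ℂ) (cl s)).im)
    (fun z s => (S.p (cl s) (z : ℂ) (w (z : ℂ) (cl s))).im)
    (fun z s => (Γ (cl s) z (w (z : ℂ) (cl s))).im)
    (fun z s => (Γ₂ (cl s) z (w (z : ℂ) (cl s))).im)
    (fun z s => (A' z (cl s)).im)
    (Jm := Jm) (JM := JM) (Bx := Bx) (k := k) (C := C) (M := M) (c := c.im)
    (fun n z s => (hXd n z).hasDerivAt.fun_add
      (((hXd (n + 1) z).hasDerivAt.fun_sub (hXd n z).hasDerivAt).const_mul (cl s)))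
    (fun n z s => (hXdd n z).fun_add
      (((hXdd (n + 1) z).fun_sub (hXdd n z)).const_mul (cl s)))
    (fun n => hcc (hXc n) (hXc (n + 1))) (fun n => hcc (hXdc n) (hXdc (n + 1)))
    (fun n => hcc (hXddc n) (hXddc (n + 1)))
    (fun z s => by
      simp only [q, hXper]
      ring)
    hJm hk hC hM hJb
    (Complex.continuous_im.comp (cont_clamp (f := fun z s => w (z : ℂ) s) hwc))
    (Complex.continuous_im.comp (cont_clamp (f := fun z s => S.p s (z : ℂ) (w (z : ℂ) s)) hpc))
    (Complex.continuous_im.comp (cont_clamp (f := fun z s => Γ s z (w (z : ℂ) s)) hΓc))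
    (Complex.continuous_im.comp (cont_clamp (f := fun z s => Γ₂ s z (w (z : ℂ) s)) hΓ₂c))
    (Complex.continuous_im.comp (cont_clamp (f := fun z s => A' z s) hA'c))
    (fun z s => hasDerivAt_im (hA' z (cl s) (cl_mem s)).1)
    (fun z s => ⟨(hw.pos z (cl s) (cl_mem s)).1.le, (hpos z (cl s) (cl_mem s)).2.1,
      (hpos z (cl s) (cl_mem s)).2.2.1, (hpos z (cl s) (cl_mem s)).2.2.2,
      (hbd z (cl s) (cl_mem s)).2.1⟩)
    (fun z s => by
      have := SHp.per (z : ℂ) (hreal z) (cl s) (cl_mem s)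
      push_cast
      rw [this])
    (fun s => by
      have h1 := him (fun z : ℝ => S.p (cl s) (z : ℂ) (w (z : ℂ) (cl s)))
        (((cont_clamp (f := fun z s => S.p s (z : ℂ) (w (z : ℂ) s)) hpc).comp
          (Continuous.prodMk_left s)).intervalIntegrable _ _)
      rw [h1, hint (cl s) (cl_mem s)])
    (fun z => by
      have h1 := hkeyC z
      have h2 : ∀ n ∈ Finset.range (N + 1), ∫ s in (0:ℝ)..1,
          (-(A' (q n z s) (cl s)) + Γ₂ (cl s) (q n z s) (w (q n z s : ℂ) (cl s)))
          = -(∫ s in (0:ℝ)..1, A' (q n z s) (cl s))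
            + ∫ s in (0:ℝ)..1, Γ₂ (cl s) (q n z s) (w (q n z s : ℂ) (cl s)) := by
        intro n _
        rw [← intervalIntegral.integral_neg]
        exact intervalIntegral.integral_add (hI1 n z).neg (hI2 n z)
      rw [Finset.sum_congr rfl h2, Finset.sum_add_distrib, Finset.sum_neg_distrib] at h1
      have h3 : ∑ n ∈ Finset.range (N + 1), ∫ s in (0:ℝ)..1, A' (q n z s) (cl s)
          = ∑ n ∈ Finset.range (N + 1), ∫ s in (0:ℝ)..1,
            Γ₂ (cl s) (q n z s) (w (q n z s : ℂ) (cl s)) := by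
        linear_combination -h1
      have h4 := congrArg Complex.im h3
      rw [Complex.im_sum, Complex.im_sum] at h4
      rw [Finset.sum_congr rfl fun n _ => him _ (hI1 n z),
        Finset.sum_congr rfl fun n _ => him _ (hI2 n z)]
      exact h4) x
  refine key.trans (le_of_eq ?_)
  have hcongr : ∀ n ∈ Finset.range (N + 1), ∫ s in (0:ℝ)..1, (w (q n x s : ℂ) (cl s)).im
      = ∫ s in (0:ℝ)..1, (w ((S.orb Y x n + s * S.vel Y x n : ℝ) : ℂ) s).im := by
    intro n _
    refine intervalIntegral.integral_congr fun s hs => ?_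
    rw [uIcc_of_le zero_le_one] at hs
    simp only [q]
    rw [cl_eq hs, horb, hvel]
  rw [Finset.sum_congr rfl hcongr]
  ring

end Pool.Agent.Helper32.FTGron
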