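import Pool.Agent.Helper32.FT.Newton1

/-!
Packet FT-NEWTON (MP_39e2b7_an): Newton's method with loss of strip width,
`ft_newton : GLin → GNewton`.
-/

set_option autoImplicit false

namespace Pool.Agent.Helper32.FTNewton

open Complex Set Filter Topology Metric MeasureTheory
open Pool.Agent.Helper76.FT

/-- the state of the iteration: `ψ`, `e`, and the error `E` -/
structure St (N : ℂ → ℝ → ℂ → ℂ) (τ r b ep : ℝ)
    (x : (ℂ → ℝ → ℂ) × ℂ × (ℂ → ℝ → ℂ)) : Prop where
  sh : SH x.1 r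
  she : SH x.2.2 r
  close : ∀ z ∈ Str r, x.1 z 1 = x.1 z 0
  eq : ∀ z ∈ Str r, ∀ t ∈ Icc (0:ℝ) 1,
    HasDerivWithinAt (fun s => x.1 z s)
      ((x.2.1 + x.2.2 z t - N z t (dz x.1 z t)) / τ) (Icc (0:ℝ) 1) t
  dzb : ∀ z ∈ Str r, ∀ t ∈ Icc (0:ℝ) 1, ‖dz x.1 z t‖ ≤ b
  eb : ∀ z ∈ Str r, ∀ t ∈ Icc (0:ℝ) 1, ‖x.2.2 z t‖ ≤ ep

lemma step {N : ℂ → ℝ → ℂ → ℂ} {ρ d M μ C : ℝ} (hN : NL N ρ d M μ) (hd : 0 < d) (hM : 0 < M)
    (hμ : 0 < μ) (hC0 : 0 < C)
    (hC : ∀ (ρ δ τ G : ℝ), 0 < δ → δ < ρ → ρ ≤ 1 → 1 ≤ τ → 0 ≤ G →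
      ∀ (w g : ℂ → ℝ → ℂ), SH w ρ → SH g ρ →
      (∀ z ∈ Str ρ, ∀ t ∈ Icc (0:ℝ) 1, μ/2 ≤ (w z t).im ∧ ‖w z t‖ ≤ 2*M/d ∧ ‖g z t‖ ≤ G) →
      ∃ (φ : ℂ → ℝ → ℂ) (e : ℂ), LSol φ w g e τ (ρ - δ) ∧ ‖e‖ ≤ C * G ∧
        ∀ z ∈ Str (ρ - δ), ∀ t ∈ Icc (0:ℝ) 1, ‖dz φ z t‖ ≤ C * G / δ^2 ∧ ‖φ z t‖ ≤ C * G / δ^2)
    {r r' b b' ep ep' τ : ℝ} (hr' : 0 < r') (hrr : r' < r) (hr : r ≤ ρ) (hr1 : r ≤ 1)
    (hτ : 1 ≤ τ) (hep : 0 ≤ ep) {x : (ℂ → ℝ → ℂ) × ℂ × (ℂ → ℝ → ℂ)} (hx : St N τ r b ep x)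
    (hb1 : b' ≤ d/8) (hb2 : 8 * M / d^2 * b' ≤ μ/2) (hbb : b + C * ep / (r - r')^2 ≤ b')
    (hee : 8 * M / d^2 * (C * ep / (r - r')^2)^2 ≤ ep') :
    ∃ y : (ℂ → ℝ → ℂ) × ℂ × (ℂ → ℝ → ℂ), St N τ r' b' ep' y ∧
      (∀ z ∈ Str r', ∀ t ∈ Icc (0:ℝ) 1, ‖y.1 z t - x.1 z t‖ ≤ C * ep / (r - r')^2) ∧
      ‖y.2.1 - x.2.1‖ ≤ C * ep := by
  obtain ⟨ψ, e, E⟩ := x
  obtain ⟨hsh, hshe, hclose, heq, hdzb, heb⟩ := hx
  simp only at hsh hshe hclose heq hdzb heb
  have hδ : 0 < r - r' := by linarith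
  have hq0 : 0 ≤ C * ep / (r - r')^2 := by positivity
  have hbb' : b ≤ b' := by linarith
  have hv8 : ∀ z ∈ Str r, ∀ t ∈ Icc (0:ℝ) 1, ‖dz ψ z t‖ ≤ d/8 :=
    fun z hz t ht => (hdzb z hz t ht).trans (hbb'.trans hb1)
  set w := Nu N (dz ψ) with hw
  have hshw : SH w r := sh_Nu hd hN hr (sh_dz hsh) hv8
  have hK0 : 0 ≤ 8 * M / d^2 := by positivity
  have hwb : ∀ z ∈ Str r, ∀ t ∈ Icc (0:ℝ) 1,
      μ/2 ≤ (w z t).im ∧ ‖w z t‖ ≤ 2*M/d ∧ ‖(fun z t => - E z t) z t‖ ≤ ep := by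
    intro z hz t ht
    have hzρ := str_mono hr hz
    have hdf := nl_diff hN hzρ ht
    have hbd := fun u hu => hN.bd z hzρ t ht u hu
    have hv := hv8 z hz t ht
    refine ⟨?_, ?_, ?_⟩
    · have h1 := cau_lip hd hdf hbd (u := 0) (v := dz ψ z t)
        (by rw [mem_ball_zero_iff, norm_zero]; positivity)
        (by rw [mem_ball_zero_iff]; linarith)
      rw [sub_zero] at h1
      have h2 : 8 * M / d^2 * ‖dz ψ z t‖ ≤ μ/2 :=
        (mul_le_mul_of_nonneg_left ((hdzb z hz t ht).trans hbb') hK0).trans hb2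
      have h3 := Complex.abs_im_le_norm
        (deriv (fun u => N z t u) (dz ψ z t) - deriv (fun u => N z t u) 0)
      rw [Complex.sub_im] at h3
      have h4 := (abs_le.1 (h3.trans (h1.trans h2))).1
      have h5 := hN.pos z hzρ t ht
      have h6 : (w z t).im = (deriv (fun u => N z t u) (dz ψ z t)).im := rfl
      linarith
    · exact cau1 hd hdf hbd (by rw [mem_ball_zero_iff]; linarith)
    · simp only [norm_neg]
      exact heb z hz t ht
  obtain ⟨φ, a, hL, ha, hφ⟩ := hC r (r - r') τ ep hδ (by linarith) hr1 hτ hep w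
    (fun z t => - E z t) hshw (sh_neg hshe) hwb
  have hrr' : r - (r - r') = r' := by ring
  rw [hrr'] at hL hφ
  have hle : r' ≤ r := hrr.le
  have hψ' : SH ψ r' := sh_mono hsh hle
  have hsum : ∀ z ∈ Str r', ∀ t ∈ Icc (0:ℝ) 1, ‖dz ψ z t + dz φ z t‖ ≤ b' := by
    intro z hz t ht
    have h1 := norm_add_le (dz ψ z t) (dz φ z t)
    have h2 := hdzb z (str_mono hle hz) t ht
    have h3 := (hφ z hz t ht).1
    linarith
  refine ⟨(fun z t => ψ z t + φ z t, e - a,
    fun z t => N z t (dz ψ z t + dz φ z t) - N z t (dz ψ z t) - w z t * dz φ z t),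
    ⟨?_, ?_, ?_, ?_, ?_, ?_⟩, ?_, ?_⟩
  · exact sh_add hψ' hL.sh
  · refine sh_sub (sh_sub (sh_comp hN (hle.trans hr) (sh_add (sh_dz hψ') (sh_dz hL.sh)) ?_)
      (sh_comp hN (hle.trans hr) (sh_dz hψ') ?_)) (sh_mul (sh_mono hshw hle) (sh_dz hL.sh))
    · intro z hz t ht
      rw [mem_ball_zero_iff]
      have := hsum z hz t ht
      linarith
    · intro z hz t ht
      rw [mem_ball_zero_iff]
      have := hv8 z (str_mono hle hz) t ht
      linarith
  · intro z hz
    simp only [hclose z (str_mono hle hz), hL.close z hz]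
  · intro z hz t ht
    have h1 := heq z (str_mono hle hz) t ht
    have h2 := hL.eq z hz t ht
    have h3 := h1.fun_add h2
    have h4 : dz (fun z t => ψ z t + φ z t) z t = dz ψ z t + dz φ z t :=
      dz_add hψ' hL.sh hz ht
    simp only
    rw [h4]
    refine h3.congr_deriv ?_
    ring
  · intro z hz t ht
    simp only
    rw [dz_add hψ' hL.sh hz ht]
    exact hsum z hz t ht
  · intro z hz t ht
    simp only
    have hzr := str_mono hle hz
    have hzρ := str_mono hr hzr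
    have hq := cau_quad hd (nl_diff hN hzρ ht) (fun u hu => hN.bd z hzρ t ht u hu)
      (u := dz ψ z t) (v := dz ψ z t + dz φ z t)
      (by rw [mem_ball_zero_iff]; have := hv8 z hzr t ht; linarith)
      (by rw [mem_ball_zero_iff]; have := hsum z hz t ht; linarith)
    simp only [add_sub_cancel_left] at hq
    refine hq.trans ?_
    refine le_trans ?_ hee
    have := (hφ z hz t ht).1
    gcongr
  · intro z hz t ht
    simp only [add_sub_cancel_left]
    exact (hφ z hz t ht).2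
  · simp only
    have : e - a - e = -a := by ring
    rw [this, norm_neg]
    exact ha

lemma seq_of_step {T : Type*} (P : ℕ → T → Prop) (R : ℕ → T → T → Prop) {x0 : T} (h0 : P 0 x0)
    (hs : ∀ n x, P n x → ∃ y, P (n+1) y ∧ R n x y) :
    ∃ f : ℕ → T, f 0 = x0 ∧ ∀ n, P n (f n) ∧ R n (f n) (f (n+1)) := by
  choose! g hg using hs
  let F : ℕ → T := fun n => Nat.rec x0 (fun n x => g n x) n
  have hP : ∀ n, P n (F n) := by
    intro n
    induction n with
    | zero => exact h0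
    | succ n ih => exact (hg n (F n) ih).1
  exact ⟨F, rfl, fun n => ⟨hP n, (hg n (F n) (hP n)).2⟩⟩

/-- passing to the limit in an ODE on `[0, 1]` -/
lemma ode_limit {y : ℕ → ℝ → ℂ} {f : ℕ → ℝ → ℂ} {y' f' : ℝ → ℂ} {B : ℝ}
    (hy : ∀ n, ∀ t ∈ Icc (0:ℝ) 1, HasDerivWithinAt (y n) (f n t) (Icc (0:ℝ) 1) t)
    (hf : ∀ n, ContinuousOn (f n) (Icc (0:ℝ) 1)) (hf' : ContinuousOn f' (Icc (0:ℝ) 1))
    (hB : ∀ n, ∀ t ∈ Icc (0:ℝ) 1, ‖f n t‖ ≤ B)
    (hyl : ∀ t ∈ Icc (0:ℝ) 1, Tendsto (fun n => y n t) atTop (𝓝 (y' t)))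
    (hfl : ∀ t ∈ Icc (0:ℝ) 1, Tendsto (fun n => f n t) atTop (𝓝 (f' t))) :
    ∀ t ∈ Icc (0:ℝ) 1, HasDerivWithinAt y' (f' t) (Icc (0:ℝ) 1) t := by
  have hint : ∀ n, ∀ t ∈ Icc (0:ℝ) 1, ∫ s in (0:ℝ)..t, f n s = y n t - y n 0 := by
    intro n t ht
    refine intervalIntegral.integral_eq_sub_of_hasDerivAt_of_le ht.1 ?_ ?_ ?_
    · exact fun s hs => ((hy n s ⟨hs.1, hs.2.trans ht.2⟩).continuousWithinAt).mono
        (Icc_subset_Icc le_rfl ht.2)
    · intro s hs
      exact (hy n s ⟨hs.1.le, hs.2.le.trans ht.2⟩).hasDerivAt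
        (Icc_mem_nhds hs.1 (lt_of_lt_of_le hs.2 ht.2))
    · apply ContinuousOn.intervalIntegrable
      rw [uIcc_of_le ht.1]
      exact (hf n).mono (Icc_subset_Icc le_rfl ht.2)
  have hint' : ∀ t ∈ Icc (0:ℝ) 1, ∫ s in (0:ℝ)..t, f' s = y' t - y' 0 := by
    intro t ht
    have h1 : Tendsto (fun n => ∫ s in (0:ℝ)..t, f n s) atTop (𝓝 (∫ s in (0:ℝ)..t, f' s)) := by
      refine intervalIntegral.tendsto_integral_filter_of_dominated_convergence (fun _ => B)
        ?_ ?_ ?_ ?_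
      · refine Eventually.of_forall fun n => ?_
        rw [uIoc_of_le ht.1]
        exact ((hf n).mono ((Ioc_subset_Icc_self).trans
          (Icc_subset_Icc le_rfl ht.2))).aestronglyMeasurable measurableSet_Ioc
      · refine Eventually.of_forall fun n => ?_
        refine Eventually.of_forall fun s hs => ?_
        rw [uIoc_of_le ht.1] at hs
        exact hB n s ⟨hs.1.le, hs.2.trans ht.2⟩
      · exact intervalIntegrable_const
      · refine Eventually.of_forall fun s hs => ?_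
        rw [uIoc_of_le ht.1] at hs
        exact hfl s ⟨hs.1.le, hs.2.trans ht.2⟩
    have h2 : Tendsto (fun n => ∫ s in (0:ℝ)..t, f n s) atTop (𝓝 (y' t - y' 0)) := by
      have := (hyl t ht).sub (hyl 0 (left_mem_Icc.2 zero_le_one))
      refine this.congr fun n => ?_
      rw [hint n t ht]
    exact tendsto_nhds_unique h1 h2
  -- extension of `f'`
  set g : ℝ → ℂ := IccExtend (zero_le_one : (0:ℝ) ≤ 1) ((Icc (0:ℝ) 1).domRestrict f') with hg
  have hgc : Continuous g := (continuousOn_iff_continuous_domRestrict.1 hf').Icc_extend'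
  have hgf : ∀ s ∈ Icc (0:ℝ) 1, g s = f' s := fun s hs => by
    rw [hg, IccExtend_of_mem _ _ hs]
    rfl
  intro t ht
  have hG : HasDerivAt (fun u => y' 0 + ∫ s in (0:ℝ)..u, g s) (g t) t := by
    have := intervalIntegral.integral_hasDerivAt_right (hgc.intervalIntegrable 0 t)
      (hgc.stronglyMeasurableAtFilter _ _) hgc.continuousAt
    exact this.const_add _
  have hG' : ∀ u ∈ Icc (0:ℝ) 1, y' u = y' 0 + ∫ s in (0:ℝ)..u, g s := by
    intro u hu
    have : ∫ s in (0:ℝ)..u, g s = ∫ s in (0:ℝ)..u, f' s := by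
      apply intervalIntegral.integral_congr
      intro s hs
      rw [uIcc_of_le hu.1] at hs
      exact hgf s ⟨hs.1, hs.2.trans hu.2⟩
    rw [this, hint' u hu]
    ring
  rw [← hgf t ht]
  exact hG.hasDerivWithinAt.congr hG' (hG' t ht)

theorem ft_newton : GLin → GNewton := by
  intro hLin ρ d M μ hρ hρ1 hd hM hμ
  obtain ⟨C, hC0, hC⟩ := hLin (μ/2) (2*M/d) (by positivity) (by positivity)
  set A : ℝ := 64 * C / ρ^2 with hA
  set K : ℝ := 8 * M / d^2 with hK
  have hA0 : 0 < A := by positivity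
  have hK0 : 0 < K := by positivity
  refine ⟨min (1/(16*K*A^2)) (min (d/(16*A)) (μ/(4*K*A))), 2*A + 2*C, by positivity,
    by positivity, ?_⟩
  intro N hN τ ε e0 hτ hε0 hε hN0
  have hε1 : 16 * K * A^2 * ε ≤ 1 := by
    have h := hε.trans (min_le_left _ _)
    rw [le_div_iff₀ (by positivity)] at h
    linarith
  have hε2 : 2 * A * ε ≤ d/8 := by
    have h := hε.trans ((min_le_right _ _).trans (min_le_left _ _))
    rw [le_div_iff₀ (by positivity)] at h
    linarith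
  have hε3 : K * (2 * A * ε) ≤ μ/2 := by
    have h := hε.trans ((min_le_right _ _).trans (min_le_right _ _))
    rw [le_div_iff₀ (by positivity)] at h
    linarith
  set r : ℕ → ℝ := fun n => 3*ρ/4 + ρ/4/2^n with hr
  set b : ℕ → ℝ := fun n => 2*A*ε*(1 - 1/4^n) with hb
  set ep : ℕ → ℝ := fun n => ε/16^n with hepn
  have hrpos : ∀ n, 3*ρ/4 < r n := fun n => by
    have : 0 < ρ/4/2^n := by positivity
    simp only [hr]; linarith
  have hrle : ∀ n, r n ≤ ρ := fun n => by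
    have h1 : (1:ℝ) ≤ 2^n := one_le_pow₀ (by norm_num)
    have : ρ/4/2^n ≤ ρ/4 := div_le_self (by positivity) h1
    simp only [hr]; linarith
  have hrd : ∀ n, r n - r (n+1) = ρ/8/2^n := fun n => by
    simp only [hr, pow_succ]
    field_simp
    ring
  have hble : ∀ n, b n ≤ 2*A*ε := fun n => by
    have h1 : (0:ℝ) ≤ 1/4^n := by positivity
    have h2 : 0 ≤ 2*A*ε := by positivity
    simp only [hb]
    nlinarith
  have hcn : ∀ n, C * ep n / (r n - r (n+1))^2 = A*ε*(1/4)^n := fun n => by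
    rw [hrd]
    simp only [hepn, hA]
    have h16 : (16:ℝ)^n = 2^n * 2^n * 4^n := by
      rw [← mul_pow, ← mul_pow]; norm_num
    rw [h16, one_div, inv_pow]
    field_simp
    ring
  obtain ⟨x, hx0, hx⟩ := seq_of_step
    (fun n x => St N τ (r n) (b n) (ep n) x)
    (fun n x y => (∀ z ∈ Str (r (n+1)), ∀ t ∈ Icc (0:ℝ) 1,
      ‖y.1 z t - x.1 z t‖ ≤ A*ε*(1/4)^n) ∧ ‖y.2.1 - x.2.1‖ ≤ C*ε*(1/16)^n)
    (x0 := ((fun _ _ => 0), e0, fun z t => N z t 0 - e0)) (by
      have hr0 : r 0 = ρ := by simp only [hr]; ring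
      have hdz0 : ∀ z t, dz (fun _ _ => (0:ℂ)) z t = 0 := fun z t => by simp [dz]
      refine ⟨sh_const 0 _, sh_sub (sh_comp hN (hrle 0) (sh_const 0 _) ?_) (sh_const _ _),
        fun _ _ => rfl, ?_, ?_, ?_⟩
      · intro z hz t ht
        exact mem_ball_self hd
      · intro z hz t ht
        simp only [hdz0]
        have : e0 + (N z t 0 - e0) - N z t 0 = 0 := by ring
        rw [this, zero_div]
        exact hasDerivWithinAt_const _ _ _
      · intro z hz t ht
        simp only [hdz0, norm_zero, hb]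
        norm_num
      · intro z hz t ht
        simp only [hepn, pow_zero, div_one]
        rw [hr0] at hz
        exact hN0 z hz t ht) (by
      intro n x hx
      obtain ⟨y, hy1, hy2, hy3⟩ := step hN hd hM hμ hC0 hC (r := r n) (r' := r (n+1))
        (b := b n) (b' := b (n+1)) (ep := ep n) (ep' := ep (n+1)) (τ := τ)
        (by have := hrpos (n+1); linarith)
        (by have h1 := hrd n; have h2 : 0 < ρ/8/2^n := by positivity
            linarith)
        (hrle n) ((hrle n).trans hρ1) hτ (by positivity) hx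
        ((hble (n+1)).trans hε2)
        ((mul_le_mul_of_nonneg_left (hble (n+1)) hK0.le).trans hε3)
        (by
          rw [hcn]
          simp only [hb, pow_succ]
          have h1 : (1:ℝ)/4^n = (1/4)^n := by rw [one_div, one_div, inv_pow]
          have h2 : (1:ℝ)/(4^n*4) = (1/4)^n/4 := by rw [← h1]; field_simp
          rw [h1, h2]
          have h3 : 0 ≤ A*ε*(1/4:ℝ)^n := by positivity
          nlinarith)
        (by
          rw [hcn]
          have h0 : ep (n+1) = ε * ((1/4:ℝ)^n)^2 / 16 := by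
            simp only [hepn, pow_succ]
            rw [one_div, inv_pow]
            have h16 : (16:ℝ)^n = 4^n * 4^n := by rw [← mul_pow]; norm_num
            rw [h16]
            field_simp
          rw [h0]
          have h1 : 0 ≤ ε * ((1/4:ℝ)^n)^2 := by positivity
          have h2 := mul_le_mul_of_nonneg_right hε1 h1
          rw [← hK]
          nlinarith)
      refine ⟨y, hy1, fun z hz t ht => ?_, ?_⟩
      · rw [← hcn]
        exact hy2 z hz t ht
      · refine hy3.trans (le_of_eq ?_)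
        simp only [hepn]
        rw [one_div, inv_pow]
        field_simp)
  -- limits
  have hr34 : ∀ n, 3*ρ/4 ≤ r n := fun n => (hrpos n).le
  have hd1 : ∀ z ∈ Str (3*ρ/4), ∀ t ∈ Icc (0:ℝ) 1, ∀ n,
      dist ((x n).1 z t) ((x (n+1)).1 z t) ≤ A*ε*(1/4)^n := by
    intro z hz t ht n
    rw [dist_comm, dist_eq_norm]
    exact (hx n).2.1 z (str_mono (hr34 (n+1)) hz) t ht
  have hd2 : ∀ n, dist ((x n).2.1) ((x (n+1)).2.1) ≤ C*ε*(1/16)^n := by
    intro n
    rw [dist_comm, dist_eq_norm]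
    exact (hx n).2.2
  set ψ : ℂ → ℝ → ℂ := fun z t => limUnder atTop (fun n => (x n).1 z t) with hψ
  have hψl : ∀ z ∈ Str (3*ρ/4), ∀ t ∈ Icc (0:ℝ) 1,
      Tendsto (fun n => (x n).1 z t) atTop (𝓝 (ψ z t)) := fun z hz t ht =>
    (cauchySeq_of_le_geometric (1/4) (A*ε) (by norm_num) (hd1 z hz t ht)).tendsto_limUnder
  obtain ⟨e, he⟩ := cauchySeq_tendsto_of_complete
    (cauchySeq_of_le_geometric (1/16) (C*ε) (by norm_num) hd2)
  have hψd : ∀ z ∈ Str (3*ρ/4), ∀ t ∈ Icc (0:ℝ) 1, ∀ n,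
      dist ((x n).1 z t) (ψ z t) ≤ A*ε*(1/4)^n/(1-1/4) := fun z hz t ht n =>
    dist_le_of_le_geometric_of_tendsto (1/4) (A*ε) (by norm_num) (hd1 z hz t ht)
      (hψl z hz t ht) n
  have hunif : ∀ ε' > 0, ∀ᶠ n in atTop, ∀ z ∈ Str (3*ρ/4), ∀ t ∈ Icc (0:ℝ) 1,
      dist (ψ z t) ((x n).1 z t) < ε' := by
    intro ε' hε'
    have h1 : Tendsto (fun n : ℕ => A*ε*(1/4:ℝ)^n/(1-1/4)) atTop (𝓝 0) := by
      have h2 := (tendsto_pow_atTop_nhds_zero_of_lt_one (r := (1/4:ℝ)) (by norm_num)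
        (by norm_num)).const_mul (A*ε/(1-1/4))
      rw [mul_zero] at h2
      refine h2.congr fun n => ?_
      ring
    filter_upwards [h1.eventually (gt_mem_nhds hε')] with n hn z hz t ht
    rw [dist_comm]
    exact (hψd z hz t ht n).trans_lt hn
  have hSH : ∀ n, SH (x n).1 (3*ρ/4) := fun n => sh_mono (hx n).1.sh (hr34 n)
  have hψS : SH ψ (3*ρ/4) := sh_of_unif (Eventually.of_forall hSH) hunif
  have hdzl : ∀ z ∈ Str (3*ρ/4), ∀ t ∈ Icc (0:ℝ) 1,
      Tendsto (fun n => dz (x n).1 z t) atTop (𝓝 (dz ψ z t)) := by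
    intro z hz t ht
    have h1 : TendstoUniformlyOn (fun n z => (x n).1 z t) (fun z => ψ z t) atTop
        (Str (3*ρ/4)) := by
      rw [Metric.tendstoUniformlyOn_iff]
      intro ε' hε'
      filter_upwards [hunif ε' hε'] with n hn z hz
      exact hn z hz t ht
    have h2 := h1.tendstoLocallyUniformlyOn.deriv
      (Eventually.of_forall fun n => (hSH n).hol t ht) (isOpen_str _)
    exact h2.tendsto_at hz
  have hdzb : ∀ z ∈ Str (3*ρ/4), ∀ t ∈ Icc (0:ℝ) 1, ‖dz ψ z t‖ ≤ 2*A*ε := by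
    intro z hz t ht
    refine le_of_tendsto (hdzl z hz t ht).norm (Eventually.of_forall fun n => ?_)
    exact ((hx n).1.dzb z (str_mono (hr34 n) hz) t ht).trans (hble n)
  have hdb : 2*A*ε < d := by linarith
  have hdzball : ∀ z ∈ Str (3*ρ/4), ∀ t ∈ Icc (0:ℝ) 1, dz ψ z t ∈ ball (0:ℂ) d := by
    intro z hz t ht
    rw [mem_ball_zero_iff]
    exact (hdzb z hz t ht).trans_lt hdb
  have hdzball' : ∀ n, ∀ z ∈ Str (3*ρ/4), ∀ t ∈ Icc (0:ℝ) 1,
      dz (x n).1 z t ∈ ball (0:ℂ) d := by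
    intro n z hz t ht
    rw [mem_ball_zero_iff]
    exact (((hx n).1.dzb z (str_mono (hr34 n) hz) t ht).trans (hble n)).trans_lt hdb
  have h34 : 3*ρ/4 ≤ ρ := by linarith
  refine ⟨ψ, e, ⟨sh_mono hψS (by linarith), ?_, ?_⟩, ?_, ?_⟩
  · intro z hz
    have hz' : z ∈ Str (3*ρ/4) := str_mono (by linarith) hz
    have h0 := hψl z hz' 0 (left_mem_Icc.2 zero_le_one)
    have h1 := hψl z hz' 1 (right_mem_Icc.2 zero_le_one)
    refine tendsto_nhds_unique_of_eventuallyEq h1 h0 (Eventually.of_forall fun n => ?_)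
    exact (hx n).1.close z (str_mono (hr34 n) hz')
  · intro z hz
    have hz' : z ∈ Str (3*ρ/4) := str_mono (by linarith) hz
    have hline : ContinuousOn (fun s : ℝ => ((z, s) : ℂ × ℝ)) (Icc (0:ℝ) 1) :=
      (Continuous.prodMk_right z).continuousOn
    have hfc : ∀ v : ℂ → ℝ → ℂ, SH v (3*ρ/4) →
        (∀ z ∈ Str (3*ρ/4), ∀ t ∈ Icc (0:ℝ) 1, v z t ∈ ball (0:ℂ) d) →
        ContinuousOn (fun s => N z s (v z s)) (Icc (0:ℝ) 1) := by
      intro v hv hvb
      exact (sh_comp hN h34 hv hvb).cont.comp hline (fun s hs => ⟨hz', hs⟩)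
    refine ode_limit (y := fun n s => (x n).1 z s)
      (f := fun n t => ((x n).2.1 + (x n).2.2 z t - N z t (dz (x n).1 z t)) / τ)
      (B := (‖e0‖ + 2*C*ε) + ε + M) ?_ ?_ ?_ ?_ ?_ ?_
    · intro n t ht
      exact (hx n).1.eq z (str_mono (hr34 n) hz') t ht
    · intro n
      refine ContinuousOn.div_const (ContinuousOn.sub (ContinuousOn.add continuousOn_const ?_)
        (hfc _ (sh_dz (hSH n)) (hdzball' n))) _
      exact (hx n).1.she.cont.comp hline (fun s hs => ⟨str_mono (hr34 n) hz', hs⟩)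
    · refine ContinuousOn.div_const (ContinuousOn.sub continuousOn_const
        (hfc _ (sh_dz hψS) hdzball)) _
    · intro n t ht
      have h1 : ‖(x n).2.1‖ ≤ ‖e0‖ + 2*C*ε := by
        have h2 : dist ((x 0).2.1) ((x n).2.1) ≤ C*ε*2 := by
          have h3 := dist_le_Ico_sum_of_dist_le (f := fun n => (x n).2.1) (m := 0) (n := n)
            (Nat.zero_le n) (d := fun k => C*ε*(1/16:ℝ)^k) (fun {k} _ _ => hd2 k)
          refine h3.trans ?_
          rw [← Finset.mul_sum]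
          have h4 : ∑ i ∈ Finset.Ico 0 n, (1/16:ℝ)^i ≤ 2 := by
            rw [Nat.Ico_zero_eq_range]
            have h5 := geom_sum_eq (x := (1/16:ℝ)) (by norm_num) n
            rw [h5]
            have h6 : (0:ℝ) ≤ (1/16:ℝ)^n := by positivity
            rw [div_le_iff_of_neg (by norm_num)]
            linarith
          exact mul_le_mul_of_nonneg_left h4 (by positivity)
        rw [hx0, dist_comm, dist_eq_norm] at h2
        simp only at h2
        have h7 := norm_add_le ((x n).2.1 - e0) e0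
        rw [sub_add_cancel] at h7
        linarith
      have h2 : ‖(x n).2.2 z t‖ ≤ ε := by
        refine ((hx n).1.eb z (str_mono (hr34 n) hz') t ht).trans ?_
        exact div_le_self hε0 (one_le_pow₀ (by norm_num))
      have h3 : ‖N z t (dz (x n).1 z t)‖ ≤ M :=
        hN.bd z (str_mono h34 hz') t ht _ (hdzball' n z hz' t ht)
      have h4 : ‖(x n).2.1 + (x n).2.2 z t - N z t (dz (x n).1 z t)‖ ≤
          (‖e0‖ + 2*C*ε) + ε + M := by
        refine (norm_sub_le _ _).trans (add_le_add ((norm_add_le _ _).trans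
          (add_le_add h1 h2)) h3)
      rw [norm_div]
      have h5 : ‖(τ:ℂ)‖ = τ := by
        rw [Complex.norm_real, Real.norm_eq_abs, abs_of_nonneg (by linarith)]
      rw [h5]
      exact (div_le_self (norm_nonneg _) hτ).trans h4
    · intro t ht
      exact hψl z hz' t ht
    · intro t ht
      refine Tendsto.div_const ?_ _
      have h1 : Tendsto (fun n => (x n).2.2 z t) atTop (𝓝 0) := by
        have h2 : Tendsto (fun n => ep n) atTop (𝓝 0) := by
          have h3 := (tendsto_pow_atTop_nhds_zero_of_lt_one (r := (1/16:ℝ)) (by norm_num)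
            (by norm_num)).const_mul ε
          rw [mul_zero] at h3
          refine h3.congr fun n => ?_
          simp only [hepn]
          rw [one_div, inv_pow]
          field_simp
        exact squeeze_zero_norm (fun n => (hx n).1.eb z (str_mono (hr34 n) hz') t ht) h2
      have h3 : Tendsto (fun n => N z t (dz (x n).1 z t)) atTop (𝓝 (N z t (dz ψ z t))) := by
        have hc : ContinuousAt (fun u => N z t u) (dz ψ z t) :=
          ((nl_diff hN (str_mono h34 hz') ht).differentiableAt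
            (isOpen_ball.mem_nhds (hdzball z hz' t ht))).continuousAt
        exact hc.tendsto.comp (hdzl z hz' t ht)
      have h4 := (he.add h1).sub h3
      simpa using h4
  · have h1 := dist_le_of_le_geometric_of_tendsto₀ (1/16) (C*ε) (by norm_num) hd2 he
    rw [hx0, dist_comm, dist_eq_norm] at h1
    simp only at h1
    refine h1.trans ?_
    have h2 : 0 ≤ A*ε := by positivity
    have h3 : 0 ≤ C*ε := by positivity
    have h4 : C*ε/(1-1/16) = 16/15*(C*ε) := by norm_num; ring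
    rw [h4]
    nlinarith
  · intro z hz t ht
    have hz' : z ∈ Str (3*ρ/4) := str_mono (by linarith) hz
    have h1 := hdzb z hz' t ht
    refine ⟨?_, lt_of_le_of_lt h1 hdb⟩
    have h3 : 0 ≤ C*ε := by positivity
    nlinarith

end Pool.Agent.Helper32.FTNewton
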